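import Pool.Agent.Helper2.RG.Base

/-! Module Sub: restriction of a `Geom` to the set of incomplete points, and the final statements
without hypotheses on the other points. -/

set_option autoImplicit false
set_option linter.unusedSectionVars false

open Set Filter Topology

namespace Pool.Agent.Helper2.RG

open Pool.Agent.Helper2.MK Pool.Agent.Helper50.HL Pool.Agent.Helper2.RO

variable {V Y : Type*} [NormedAddCommGroup V] [InnerProductSpace ℝ V] [FiniteDimensional ℝ V]
    [TopologicalSpace Y] [T2Space Y]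

/-- Completeness propagates along the sections. -/
theorem dom_univ_of_sec {dev : Y → V} (hdev : IsLocalHomeomorph dev) {y : Y} {x : V}
    (hx : x ∈ dom dev y) (h : dom dev (sec dev y x) = univ) : dom dev y = univ := by
  obtain ⟨C, hC, hconv, hy, hxC, s, hs, hsy⟩ := hx
  have h1 := chart_convex hdev hC hconv hy hs hsy
  have h2 := rebase hdev hC hconv hy h1.1 hxC
  have h3 : dev (sec dev y x) = x := dev_sec hdev (h1.1 hxC)
  have h4 := rebase hdev (y := sec dev y x) (C := univ) isOpen_univ convex_univ (mem_univ _)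
    (by rw [h]) (x := dev y) (mem_univ _)
  have h5 : sec dev (sec dev y x) (dev y) = y := by
    rw [h2.2 hy, sec_self hdev]
  rw [h5] at h4
  exact univ_subset_iff.1 h4.1

theorem dom_univ_of_sec' {dev : Y → V} (hdev : IsLocalHomeomorph dev) {y : Y} {x : V}
    (hx : x ∈ dom dev y) (h : dom dev y = univ) : dom dev (sec dev y x) = univ := by
  have h4 := rebase hdev (y := y) (C := univ) isOpen_univ convex_univ (mem_univ _)
    (by rw [h]) (x := x) (mem_univ _)
  exact univ_subset_iff.1 h4.1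

/-- The incomplete points. -/
def Inc (dev : Y → V) : Set Y := {y | dom dev y ≠ univ}

theorem isOpen_inc {dev : Y → V} (hdev : IsLocalHomeomorph dev) : IsOpen (Inc dev) := by
  rw [isOpen_iff_mem_nhds]
  intro y hy
  filter_upwards [near hdev y] with y' h
  obtain ⟨h1, h2, -, -⟩ := h
  intro h3
  rw [← h2] at h3
  exact hy (dom_univ_of_sec hdev h1 h3)

theorem sec_mem_inc {dev : Y → V} (hdev : IsLocalHomeomorph dev) {y : Y} (hy : y ∈ Inc dev) {x : V}
    (hx : x ∈ dom dev y) : sec dev y x ∈ Inc dev := fun h => hy (dom_univ_of_sec hdev hx h)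

/-- The restriction of `dev` to the incomplete points. -/
def rdev (dev : Y → V) (y : Inc dev) : V := dev y.1

theorem rdev_local {dev : Y → V} (hdev : IsLocalHomeomorph dev) : IsLocalHomeomorph (rdev dev) :=
  hdev.comp (isOpen_inc hdev).isOpenEmbedding_subtypeVal.isLocalHomeomorph

theorem rdom {dev : Y → V} (hdev : IsLocalHomeomorph dev) (y : Inc dev) :
    dom (rdev dev) y = dom dev y.1 := by
  ext x
  constructor
  · rintro ⟨C, hC, hconv, hy, hxC, s, hs, hsy⟩
    refine ⟨C, hC, hconv, hy, hxC, fun v => (s v).1, ⟨?_, fun v hv => hs.2 v hv⟩, ?_⟩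
    · exact continuous_subtype_val.comp_continuousOn hs.1
    · show (s (dev y.1)).1 = y.1
      exact congrArg Subtype.val hsy
  · rintro ⟨C, hC, hconv, hy, hxC, s, hs, hsy⟩
    have h1 := chart_convex hdev hC hconv hy hs hsy
    classical
    have hmem : ∀ v ∈ C, s v ∈ Inc dev := by
      intro v hv
      rw [h1.2 hv]
      exact sec_mem_inc hdev y.2 (h1.1 hv)
    refine ⟨C, hC, hconv, hy, hxC, fun v => if hv : v ∈ C then ⟨s v, hmem v hv⟩ else y, ⟨?_, ?_⟩, ?_⟩
    · rw [continuousOn_iff_continuous_restrict, continuous_induced_rng]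
      have h2 : Continuous (C.restrict s) := continuousOn_iff_continuous_restrict.1 hs.1
      refine h2.congr fun v => ?_
      show s v.1 = (dite (v.1 ∈ C) (fun hv => (⟨s v.1, hmem v.1 hv⟩ : Inc dev)) fun _ => y).1
      rw [dif_pos v.2]
    · intro v hv
      show dev (dite (v ∈ C) (fun hv => (⟨s v, hmem v hv⟩ : Inc dev)) fun _ => y).1 = v
      rw [dif_pos hv]
      exact hs.2 v hv
    · show dite (dev y.1 ∈ C) (fun hv => (⟨s (dev y.1), hmem _ hv⟩ : Inc dev)) (fun _ => y) = y
      rw [dif_pos hy]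
      exact Subtype.ext hsy

theorem rsec {dev : Y → V} (hdev : IsLocalHomeomorph dev) (y : Inc dev) {x : V}
    (hx : x ∈ dom (rdev dev) y) : (sec (rdev dev) y x).1 = sec dev y.1 x := by
  obtain ⟨C, hC, hconv, hy, hxC, s, hs, hsy⟩ := hx
  have h1 := (chart_convex (rdev_local hdev) hC hconv hy hs hsy).2
  have h2 := (chart_convex hdev (y := y.1) (s := fun v => (s v).1) hC hconv hy
    ⟨continuous_subtype_val.comp_continuousOn hs.1, fun v hv => hs.2 v hv⟩
    (congrArg Subtype.val hsy)).2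
  rw [← h1 hxC]
  exact h2 hxC

theorem rrad {W : Type*} [NormedAddCommGroup W] [NormedSpace ℝ W] {dev : Y → V}
    (hdev : IsLocalHomeomorph dev) (y : Inc dev) (T : V →L[ℝ] W) :
    rad (rdev dev) y T = rad dev y.1 T := by
  unfold rad
  rw [rdom hdev]
  rfl

theorem rFR {dev : Y → V} (hdev : IsLocalHomeomorph dev) (y : Inc dev) (S : V →L[ℝ] V) :
    FR (rdev dev) y S = FR dev y.1 S := by
  unfold FR
  rw [rrad hdev]

theorem rbaseM {dev : Y → V} (hdev : IsLocalHomeomorph dev) (y : Inc dev)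
    (P : Submodule ℝ (V →L[ℝ] V)) : baseM (rdev dev) P y = baseM dev P y.1 := by
  unfold baseM
  congr 1
  ext S
  exact rFR hdev y _

/-- Restriction to the incomplete points. -/
def Geom.inc (D : Geom V Y) : Geom V (Inc D.dev) where
  dev := rdev D.dev
  dev_local := rdev_local D.dev_local
  P := D.P
  cartan := D.cartan
  op y := D.op y.1
  op_mem y := D.op_mem y.1
  r0 := D.r0
  hr0 := D.hr0
  A := D.A
  hA := D.hA
  ball := by
    intro y x hx
    rw [rdom D.dev_local]
    exact D.ball y.1 x hx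
  hop := by
    intro y x hx v
    have h1 : x ∈ dom (rdev D.dev) y := by
      rw [rdom D.dev_local]
      refine D.ball y.1 x ?_
      have h2 : ‖ex (D.op y.1) (x - D.dev y.1)‖ ≤ D.r0 / 2 := hx
      linarith [D.hr0]
    rw [rsec D.dev_local y h1]
    exact D.hop y.1 x hx v

theorem Geom.inc_hinc (D : Geom V Y) : ∀ y, dom D.inc.dev y ≠ univ := by
  intro y
  show dom (rdev D.dev) y ≠ univ
  rw [rdom D.dev_local]
  exact y.2

/-- Complete points have vanishing `baseM`. -/
theorem baseM_of_univ {dev : Y → V} (P : Submodule ℝ (V →L[ℝ] V)) {y : Y} (h : dom dev y = univ) :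
    baseM dev P y = 0 := by
  have h1 : ∀ S : V →L[ℝ] V, FR dev y S = 0 := by
    intro S
    unfold FR rad
    rw [h, compl_univ, image_empty, Real.sInf_empty, inv_zero]
  unfold baseM
  rw [show (fun S : P => FR dev y (S : V →L[ℝ] V)) = fun _ => 0 from funext fun S => h1 _]
  exact ciInf_const

/-- CASE E: the function `baseM` has no positive maximum. -/
theorem Geom.no_max (D : Geom V Y) {y0 : Y} (hpos : 0 < baseM D.dev D.P y0)
    (hmax : ∀ y, baseM D.dev D.P y ≤ baseM D.dev D.P y0) : False := by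
  have h0 : y0 ∈ Inc D.dev := by
    intro h
    rw [baseM_of_univ D.P h] at hpos
    exact lt_irrefl _ hpos
  refine caseE (D := D.inc) D.inc_hinc (y0 := ⟨y0, h0⟩) ?_ ?_
  · show 0 < baseM (rdev D.dev) D.P ⟨y0, h0⟩
    rw [rbaseM D.dev_local]
    exact hpos
  · intro y
    show baseM (rdev D.dev) D.P y ≤ baseM (rdev D.dev) D.P ⟨y0, h0⟩
    rw [rbaseM D.dev_local, rbaseM D.dev_local]
    exact hmax y.1

/-- CASE F: slabs. -/
theorem Geom.slab_exists (D : Geom V Y) {y : Y} (hy : dom D.dev y ≠ univ)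
    (h : baseM D.dev D.P y ≤ 0) :
    ∃ z ∈ D.P, ‖z‖ = 1 ∧ ∃ c > 0, ∀ x, ‖top z (x - D.dev y)‖ < c → x ∈ dom D.dev y := by
  obtain ⟨z, hz, hz1, c, hc, hs⟩ := RG.slab_exists (D := D.inc) D.inc_hinc (y := ⟨y, hy⟩) (by
    show baseM (rdev D.dev) D.P ⟨y, hy⟩ ≤ 0
    rw [rbaseM D.dev_local]
    exact h)
  refine ⟨z, hz, hz1, c, hc, fun x hx => ?_⟩
  have h1 : x ∈ dom (rdev D.dev) ⟨y, hy⟩ := hs x hx
  rw [rdom D.dev_local] at h1
  exact h1

/-- Uniqueness of the slab direction. -/
theorem Geom.slab_unique (D : Geom V Y) {y : Y} (hy : dom D.dev y ≠ univ) {z z' : V →L[ℝ] V}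
    {c c' : ℝ} (hz : z ∈ D.P) (hz1 : ‖z‖ = 1) (hz' : z' ∈ D.P) (hz1' : ‖z'‖ = 1) (hc : 0 < c)
    (hc' : 0 < c') (h : ∀ x, ‖top z (x - D.dev y)‖ < c → x ∈ dom D.dev y)
    (h' : ∀ x, ‖top z' (x - D.dev y)‖ < c' → x ∈ dom D.dev y) : z = z' := by
  have key : ∀ {z : V →L[ℝ] V} {c : ℝ}, (∀ x, ‖top z (x - D.dev y)‖ < c → x ∈ dom D.dev y) →
      Slab D.inc.dev ⟨y, hy⟩ z c := by
    intro z c h x hx
    show x ∈ dom (rdev D.dev) ⟨y, hy⟩
    rw [rdom D.dev_local]
    exact h x hx
  exact RG.slab_unique (D := D.inc) D.inc_hinc hz hz1 hz' hz1' hc hc' (key h) (key h')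

end Pool.Agent.Helper2.RG
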