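import Pool.Agent.FOL.Defs
import Pool.Agent.Helper2.RG.Sub

/-! Module Semi: the infimum over `P` of the inverse leafwise radii attains its maximum; the leafwise
statements for a compact affine manifold with an invariant subspace of rank one type. -/

set_option autoImplicit false
set_option linter.unusedSectionVars false

open Set Filter Topology

namespace Pool.Agent.Helper2.RG

open Pool.Agent.Helper2.MK Pool.Agent.Helper50.HL Pool.Agent.Helper2.RO Pool.Agent.FOL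

variable {V G Y : Type*} [NormedAddCommGroup V] [InnerProductSpace ℝ V] [FiniteDimensional ℝ V]
    [Group G] [TopologicalSpace Y] [T2Space Y] [MulAction G Y] (D : FData V G Y)

/-- the leafwise inverse radius -/
noncomputable def FE (y : Y) (S : D.E →L[ℝ] D.E) : ℝ :=
  (sInf ((fun e : D.E => ‖ex S e‖) '' (LD D y)ᶜ))⁻¹

/-- infimum over `P` of the inverse leafwise radii -/
noncomputable def mE (y : Y) : ℝ := ⨅ S : D.P, FE D y (S : D.E →L[ℝ] D.E)

theorem FE_nonneg (y : Y) (S : D.E →L[ℝ] D.E) : 0 ≤ FE D y S := by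
  refine inv_nonneg.2 (Real.sInf_nonneg ?_)
  rintro _ ⟨e, -, rfl⟩
  exact norm_nonneg _

theorem mE_bdd (y : Y) : BddBelow (range fun S : D.P => FE D y (S : D.E →L[ℝ] D.E)) := by
  refine ⟨0, ?_⟩
  rintro _ ⟨S, rfl⟩
  exact FE_nonneg D y S

theorem mE_le (y : Y) {S : D.E →L[ℝ] D.E} (hS : S ∈ D.P) : mE D y ≤ FE D y S :=
  ciInf_le (mE_bdd D y) (⟨S, hS⟩ : D.P)

theorem mE_exists_lt {y : Y} {c : ℝ} (h : mE D y < c) : ∃ S ∈ D.P, FE D y S < c := by
  obtain ⟨S, hS⟩ := exists_lt_of_ciInf_lt h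
  exact ⟨S, S.2, hS⟩

theorem FE_smul {g : G} {y : Y} {S S' : D.E →L[ℝ] D.E} (h : ∀ x, ‖ex S' (LE D g x)‖ = ‖ex S x‖) :
    FE D (g • y) S' = FE D y S := by
  unfold FE
  congr 2
  ext r
  constructor
  · rintro ⟨e, he, rfl⟩
    refine ⟨LE D g⁻¹ e, ?_, ?_⟩
    · intro h'
      apply he
      rw [← LE_inv' D g e, LD_smul]
      exact h'
    · show ‖ex S (LE D g⁻¹ e)‖ = ‖ex S' e‖
      rw [← h, LE_inv']
  · rintro ⟨e, he, rfl⟩
    refine ⟨LE D g e, ?_, ?_⟩
    · intro h'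
      exact he ((LD_smul D g y e).1 h')
    · exact h e

theorem mE_smul_le (g : G) (y : Y) : mE D (g • y) ≤ mE D y := by
  refine le_ciInf fun S => ?_
  obtain ⟨S', hS', h⟩ := pres' D g S.2
  rw [← FE_smul D h]
  exact mE_le D _ hS'

theorem mE_smul (g : G) (y : Y) : mE D (g • y) = mE D y := by
  refine le_antisymm (mE_smul_le D g y) ?_
  have h := mE_smul_le D g⁻¹ (g • y)
  rwa [inv_smul_smul] at h

theorem FE_le_of_ball {y : Y} {S : D.E →L[ℝ] D.E} {ρ : ℝ} (hρ : 0 < ρ)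
    (h : ∀ e : D.E, ‖ex S e‖ ≤ ρ → e ∈ LD D y) : FE D y S ≤ ρ⁻¹ := by
  unfold FE
  rcases (LD D y)ᶜ.eq_empty_or_nonempty with h0 | h0
  · rw [h0, image_empty, Real.sInf_empty, inv_zero]
    exact (inv_pos.2 hρ).le
  · refine inv_anti₀ hρ (le_csInf (h0.image _) ?_)
    rintro _ ⟨e, he, rfl⟩
    by_contra hcon
    push Not at hcon
    exact he (h e hcon.le)

theorem isOpen_LD (y : Y) : IsOpen (LD D y) := by
  have h1 : Continuous fun e : D.E => D.dev y + (e : V) :=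
    continuous_const.add continuous_subtype_val
  exact (isOpen_dom y).preimage h1

theorem zero_mem_LD (y : Y) : (0 : D.E) ∈ LD D y := by
  rw [mem_LD, ZeroMemClass.coe_zero, add_zero]
  exact mem_dom_self D.dev_local y

theorem exists_ball_of_FE {y : Y} {S : D.E →L[ℝ] D.E} (hS : S ∈ D.P) {c : ℝ} (hc : 0 < c)
    (h : FE D y S < c) : ∃ ρ, c⁻¹ < ρ ∧ ∀ e : D.E, ‖ex S e‖ ≤ ρ → e ∈ LD D y := by
  rcases (LD D y)ᶜ.eq_empty_or_nonempty with h0 | h0
  · refine ⟨c⁻¹ + 1, lt_add_one _, fun e _ => ?_⟩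
    by_contra hcon
    have : e ∈ (LD D y)ᶜ := hcon
    rw [h0] at this
    exact this
  · set r := sInf ((fun e : D.E => ‖ex S e‖) '' (LD D y)ᶜ) with hr
    have hrpos : 0 < r := by
      obtain ⟨ε, hε, hball⟩ := Metric.isOpen_iff.1 (isOpen_LD D y) _ (zero_mem_LD D y)
      have h1 : ε / Real.exp ‖S‖ ≤ r := by
        refine le_csInf (h0.image _) ?_
        rintro _ ⟨e, he, rfl⟩
        have h2 : ε ≤ ‖e‖ := by
          by_contra hcon
          push Not at hcon
          exact he (hball (by rwa [mem_ball_zero_iff]))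
        rw [div_le_iff₀ (Real.exp_pos _)]
        have h3 := le_norm_ex D.cartan hS e
        rw [mul_comm]
        exact h2.trans h3
      exact lt_of_lt_of_le (div_pos hε (Real.exp_pos _)) h1
    have h1 : c⁻¹ < r := by
      have h2 : r⁻¹ < c := h
      rwa [inv_lt_comm₀ hrpos hc] at h2
    obtain ⟨ρ, h2, h3⟩ := exists_between h1
    refine ⟨ρ, h2, fun e he => ?_⟩
    by_contra hcon
    have h4 : r ≤ ‖ex S e‖ := by
      refine csInf_le ⟨0, ?_⟩ ⟨e, hcon, rfl⟩
      rintro _ ⟨x, -, rfl⟩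
      exact norm_nonneg _
    linarith

theorem FE_usc {S : D.E →L[ℝ] D.E} (hS : S ∈ D.P) {y : Y} {c : ℝ} (h : FE D y S < c) :
    ∀ᶠ y' in 𝓝 y, FE D y' S < c := by
  have hc : 0 < c := lt_of_le_of_lt (FE_nonneg D y S) h
  obtain ⟨ρ, h1, h2⟩ := exists_ball_of_FE D hS hc h
  have hρ : 0 < ρ := (inv_pos.2 hc).trans h1
  have hprop : ProperSpace D.E := FiniteDimensional.proper ℝ D.E
  have hcomp : IsCompact {e : D.E | ‖ex S e‖ ≤ ρ} := by
    refine (isCompact_closedBall (0 : D.E) (Real.exp ‖S‖ * ρ)).of_isClosed_subset ?_ ?_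
    · exact isClosed_le (ex S).continuous.norm continuous_const
    · intro e he
      rw [mem_closedBall_zero_iff]
      exact (le_norm_ex D.cartan hS e).trans
        (mul_le_mul_of_nonneg_left he (Real.exp_pos _).le)
  have hcont : Continuous fun p : Y × D.E => (p.1, D.dev p.1 + (p.2 : V)) :=
    continuous_fst.prodMk ((D.dev_local.continuous.comp continuous_fst).add
      (continuous_subtype_val.comp continuous_snd))
  have hev : ∀ᶠ y' in 𝓝 y, ∀ e ∈ {e : D.E | ‖ex S e‖ ≤ ρ}, e ∈ LD D y' := by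
    refine hcomp.eventually_forall_of_forall_eventually fun e he => ?_
    have h3 : IsOpen {p : Y × D.E | D.dev p.1 + (p.2 : V) ∈ dom D.dev p.1} :=
      (isOpen_graph D.dev_local).preimage hcont
    exact h3.mem_nhds (h2 e he)
  filter_upwards [hev] with y' hy'
  refine (FE_le_of_ball D hρ hy').trans_lt ?_
  rwa [inv_lt_comm₀ hρ hc]

theorem mE_usc : UpperSemicontinuous (mE D) := by
  intro y c hc
  obtain ⟨S, hS, hlt⟩ := mE_exists_lt D hc
  filter_upwards [FE_usc D hS hlt] with y' hy'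
  exact (mE_le D y' hS).trans_lt hy'

/-- the maximum is attained -/
theorem exists_max [Nonempty Y] : ∃ y0, ∀ y, mE D y ≤ mE D y0 := by
  obtain ⟨K, hK, hcov⟩ := D.covering.cocompact
  have hKne : K.Nonempty := by
    obtain ⟨y⟩ := ‹Nonempty Y›
    obtain ⟨g, hg⟩ := hcov y
    exact ⟨_, hg⟩
  obtain ⟨y0, hy0, hmax⟩ := ((mE_usc D).upperSemicontinuousOn K).exists_isMaxOn hKne hK
  refine ⟨y0, fun y => ?_⟩
  obtain ⟨g, hg⟩ := hcov y
  rw [← mE_smul D g y]
  exact hmax hg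

/-! ## The geometry of the leaves -/

section Leaf

variable {X : Type*} [TopologicalSpace X] [T2Space X] (q : X → D.E) (ι : X → Y)
  (hq : IsLocalHomeomorph q)
  (hL1 : ∀ x e, e ∈ dom q x ↔ e - q x ∈ LD D (ι x))
  (hL2 : ∀ x e, e ∈ dom q x → ι (sec q x e) = sec D.dev (ι x) (D.dev (ι x) + ((e - q x : D.E) : V)))

include hL1 in
theorem FR_leaf (x : X) (S : D.E →L[ℝ] D.E) : FR q x S = FE D (ι x) S := by
  unfold FR FE rad
  congr 2
  ext r
  constructor
  · rintro ⟨b, hb, rfl⟩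
    refine ⟨b - q x, ?_, rfl⟩
    intro h
    exact hb ((hL1 x b).2 h)
  · rintro ⟨e, he, rfl⟩
    refine ⟨q x + e, ?_, ?_⟩
    · intro h
      rw [hL1, add_sub_cancel_left] at h
      exact he h
    · show ‖ex S (q x + e - q x)‖ = ‖ex S e‖
      rw [add_sub_cancel_left]

include hL1 in
theorem baseM_leaf (x : X) : baseM q D.P x = mE D (ι x) := by
  unfold baseM mE
  congr 1
  ext S
  exact FR_leaf D q ι hL1 x _

include hq hL1 hL2 in
/-- the leaf space carries a `Geom` -/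
theorem exists_geom : ∃ Ge : Geom D.E X, Ge.dev = q ∧ Ge.P = D.P := by
  obtain ⟨Φ⟩ := exists_frame D.toAffineDeveloping
  choose g z hz hg using fun y : Y => Φ.cover y
  choose T hT hTx using fun g : G => exists_norm D g
  have hcoe : ∀ (g : G) (e : D.E), ‖LE D g e‖ = ‖lin D.toAffineDeveloping g (e : V)‖ := fun g e => by
    rw [← LE_coe]
    rfl
  have hkey : ∀ (x : X) (e : D.E), ‖ex (T (g (ι x))) (e - q x)‖ =
      ‖lin D.toAffineDeveloping (g (ι x))⁻¹
        (D.dev (ι x) + ((e - q x : D.E) : V) - D.dev (g (ι x) • z (ι x)))‖ := by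
    intro x e
    rw [← hTx, hcoe, ← hg (ι x), add_sub_cancel_left]
  have hball : ∀ (x : X) (e : D.E), ‖ex (T (g (ι x))) (e - q x)‖ < Φ.r0 → e ∈ dom q x := by
    intro x e he
    rw [hL1, mem_LD]
    rw [hkey] at he
    have h1 := ellipsoid D.toAffineDeveloping Φ (g (ι x)) (hz (ι x)) he
    rwa [← hg (ι x)] at h1
  refine ⟨{ dev := q, dev_local := hq, P := D.P, cartan := D.cartan, op := fun x => T (g (ι x)),
            op_mem := fun x => hT _, r0 := Φ.r0, hr0 := Φ.hr0, A := Φ.A, hA := Φ.hA,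
            ball := hball, hop := ?_ }, rfl, rfl⟩
  intro x e he v
  have hr := Φ.hr0
  have hdom := hball x e (by linarith)
  have h2 := hL2 x e hdom
  have h1 := hop D.toAffineDeveloping Φ (g (ι x)) (g (ι (sec q x e))) (hz (ι x))
    (hz (ι (sec q x e))) (x := D.dev (ι x) + ((e - q x : D.E) : V)) (by rw [← hkey]; exact he)
    (by rw [← hg (ι x), ← hg (ι (sec q x e)), h2]) (v : V)
  rw [← hTx, ← hTx, hcoe, hcoe]
  exact h1

include hq hL1 hL2 in
/-- `mE` vanishes. -/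
theorem mE_nonpos (hι : Function.Surjective ι) (y : Y) : mE D y ≤ 0 := by
  obtain ⟨Ge, h1, h2⟩ := exists_geom D q ι hq hL1 hL2
  haveI : Nonempty Y := ⟨y⟩
  obtain ⟨y0, hy0⟩ := exists_max D
  by_contra hcon
  push Not at hcon
  obtain ⟨x0, hx0⟩ := hι y0
  refine Ge.no_max (y0 := x0) ?_ ?_
  · rw [h1, h2, baseM_leaf D q ι hL1, hx0]
    exact hcon.trans_le (hy0 y)
  · intro x
    rw [h1, h2, baseM_leaf D q ι hL1, baseM_leaf D q ι hL1, hx0]
    exact hy0 _

include hL1 in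
theorem LD_univ_iff (x : X) : LD D (ι x) = univ ↔ dom q x = univ := by
  rw [eq_univ_iff_forall, eq_univ_iff_forall]
  constructor
  · intro h e
    exact (hL1 x e).2 (h _)
  · intro h e
    have h1 := (hL1 x (q x + e)).1 (h _)
    rwa [add_sub_cancel_left] at h1

include hq hL1 hL2 in
theorem slab_exists_of (hι : Function.Surjective ι) (y : Y) (h : LD D y ≠ univ) :
    ∃ z ∈ D.P, ‖z‖ = 1 ∧ ∃ c > 0, ∀ e : D.E, ‖top z e‖ < c → e ∈ LD D y := by
  obtain ⟨x, rfl⟩ := hι y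
  have h0 := mE_nonpos D q ι hq hL1 hL2 hι (ι x)
  obtain ⟨Ge, h1, h2⟩ := exists_geom D q ι hq hL1 hL2
  rw [← baseM_leaf D q ι hL1, ← h1, ← h2] at h0
  have h3 : dom Ge.dev x ≠ univ := by
    rw [h1]
    exact fun h' => h ((LD_univ_iff D q ι hL1 x).2 h')
  obtain ⟨z, hz, hz1, c, hc, hs⟩ := Ge.slab_exists h3 h0
  rw [h2] at hz
  rw [h1] at hs
  refine ⟨z, hz, hz1, c, hc, fun e he => ?_⟩
  have h4 := hs (q x + e) (by rwa [add_sub_cancel_left])
  rwa [hL1, add_sub_cancel_left] at h4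

include hq hL1 hL2 in
theorem slab_unique_of (hι : Function.Surjective ι) (y : Y) (h : LD D y ≠ univ)
    {z z' : D.E →L[ℝ] D.E} {c c' : ℝ} (hz : z ∈ D.P) (hz1 : ‖z‖ = 1) (hz' : z' ∈ D.P)
    (hz1' : ‖z'‖ = 1) (hc : 0 < c) (hc' : 0 < c') (hs : ∀ e : D.E, ‖top z e‖ < c → e ∈ LD D y)
    (hs' : ∀ e : D.E, ‖top z' e‖ < c' → e ∈ LD D y) : z = z' := by
  obtain ⟨x, rfl⟩ := hι y
  obtain ⟨Ge, h1, h2⟩ := exists_geom D q ι hq hL1 hL2
  have h3 : dom Ge.dev x ≠ univ := by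
    rw [h1]
    exact fun h' => h ((LD_univ_iff D q ι hL1 x).2 h')
  refine Ge.slab_unique h3 (by rw [h2]; exact hz) hz1 (by rw [h2]; exact hz') hz1' hc hc' ?_ ?_
  · intro e he
    rw [h1] at he ⊢
    rw [hL1]
    exact hs _ he
  · intro e he
    rw [h1] at he ⊢
    rw [hL1]
    exact hs' _ he

end Leaf

end Pool.Agent.Helper2.RG
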