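import Pool.Agent.Helper2.RG.CaseE
import Pool.Agent.Helper2.RG.CaseFa

/-! Module Base: change of the base point of `P`, and the end of Case E. -/

set_option autoImplicit false
set_option linter.unusedSectionVars false

open Set Filter Topology

namespace Pool.Agent.Helper2.RG

open Pool.Agent.Helper2.MK Pool.Agent.Helper50.HL Pool.Agent.Helper2.RO

variable {V Y : Type*} [NormedAddCommGroup V] [InnerProductSpace ℝ V] [FiniteDimensional ℝ V]
    [TopologicalSpace Y] [T2Space Y]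

/-- the composition of two norms is again one of the norms -/
theorem base_norm {P : Submodule ℝ (V →L[ℝ] V)} (hP : IsCartan P) {S S0 : V →L[ℝ] V} (hS : S ∈ P)
    (hS0 : S0 ∈ P) : ∃ R ∈ P, ∀ z, ‖ex S (ex S0 z)‖ = ‖ex R z‖ := by
  obtain ⟨R, hR, h⟩ := hP.tri S0 hS0 ((2 : ℝ) • S) (P.smul_mem _ hS)
  refine ⟨(1 / 2 : ℝ) • R, P.smul_mem _ hR, fun z => ?_⟩
  have h1 : ‖ex S (ex S0 z)‖ ^ 2 = ‖ex ((1 / 2 : ℝ) • R) z‖ ^ 2 := by
    rw [norm_ex_sq_inner hP hS, norm_ex_sq_inner hP (P.smul_mem _ hR), smul_smul,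
      show (2 : ℝ) * (1 / 2) = 1 by norm_num, one_smul, ← h, mul_apply_eq_comp,
      mul_apply_eq_comp, ex_symm hP hS0]
  exact (sq_eq_sq₀ (norm_nonneg _) (norm_nonneg _)).1 h1

theorem base_homeo (S : V →L[ℝ] V) : ∃ e : V ≃ₜ V, (∀ x, e x = ex S x) ∧ ∀ x, e.symm x = ex (-S) x :=
  ⟨{ toFun := ex S, invFun := ex (-S), left_inv := fun x => ex_neg_ex S x,
     right_inv := fun x => ex_ex_neg S x, continuous_toFun := (ex S).continuous,
     continuous_invFun := (ex (-S)).continuous }, fun _ => rfl, fun _ => rfl⟩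

theorem base_dom_sub {dev dev' : Y → V} {S : V →L[ℝ] V} (h : ∀ y, dev' y = ex S (dev y)) (y : Y)
    {x : V} (hx : x ∈ dom dev y) : ex S x ∈ dom dev' y := by
  obtain ⟨C, hC, hconv, hy, hxC, s, hs, hsy⟩ := hx
  refine ⟨ex (-S) ⁻¹' C, hC.preimage (ex (-S)).continuous,
    hconv.linear_preimage ((ex (-S) : V →L[ℝ] V) : V →ₗ[ℝ] V), ?_, ?_,
    fun v => s (ex (-S) v), ⟨?_, ?_⟩, ?_⟩
  · show ex (-S) (dev' y) ∈ C
    rw [h, ex_neg_ex]; exact hy
  · show ex (-S) (ex S x) ∈ C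
    rw [ex_neg_ex]; exact hxC
  · exact hs.1.comp (ex (-S)).continuous.continuousOn fun v hv => hv
  · intro v hv
    rw [h, hs.2 _ hv, ex_ex_neg]
  · simp only
    rw [h, ex_neg_ex, hsy]

theorem base_dom {dev dev' : Y → V} {S : V →L[ℝ] V} (h : ∀ y, dev' y = ex S (dev y)) (y : Y)
    (x : V) : ex S x ∈ dom dev' y ↔ x ∈ dom dev y := by
  refine ⟨fun hx => ?_, base_dom_sub h y⟩
  have h' : ∀ y, dev y = ex (-S) (dev' y) := fun y => by rw [h, ex_neg_ex]
  have := base_dom_sub h' y hx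
  rwa [ex_neg_ex] at this

theorem base_rad {dev dev' : Y → V} {S0 T R : V →L[ℝ] V} (h : ∀ y, dev' y = ex S0 (dev y)) (y : Y)
    (hT : ∀ x, ‖T (ex S0 x)‖ = ‖R x‖) : rad dev' y T = rad dev y R := by
  unfold rad
  congr 1
  ext r
  constructor
  · rintro ⟨b, hb, rfl⟩
    refine ⟨ex (-S0) b, ?_, ?_⟩
    · intro h'
      apply hb
      rw [← base_dom h y, ex_ex_neg] at h'
      exact h'
    · simp only
      rw [← hT, map_sub, ex_ex_neg, h]
  · rintro ⟨b, hb, rfl⟩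
    refine ⟨ex S0 b, ?_, ?_⟩
    · intro h'
      exact hb ((base_dom h y b).1 h')
    · simp only
      rw [← hT, map_sub (ex S0), h]

theorem base_sec {dev dev' : Y → V} (hdev : IsLocalHomeomorph dev) (hdev' : IsLocalHomeomorph dev')
    {S : V →L[ℝ] V} (h : ∀ y, dev' y = ex S (dev y)) (y : Y) {x : V} (hx : x ∈ dom dev y) :
    sec dev' y (ex S x) = sec dev y x := by
  obtain ⟨C, hC, hconv, hy, hxC, s, hs, hsy⟩ := hx
  have e1 := (chart_convex hdev hC hconv hy hs hsy).2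
  have hy' : dev' y ∈ ex (-S) ⁻¹' C := by
    show ex (-S) (dev' y) ∈ C
    rw [h, ex_neg_ex]; exact hy
  have e2 := (chart_convex hdev' (y := y) (C := ex (-S) ⁻¹' C) (s := fun v => s (ex (-S) v))
    (hC.preimage (ex (-S)).continuous)
    (hconv.linear_preimage ((ex (-S) : V →L[ℝ] V) : V →ₗ[ℝ] V)) hy'
    ⟨hs.1.comp (ex (-S)).continuous.continuousOn fun v hv => hv, fun v hv => by
      rw [h, hs.2 _ hv, ex_ex_neg]⟩ (by
      show s (ex (-S) (dev' y)) = y
      rw [h, ex_neg_ex, hsy])).2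
  rw [← e1 hxC]
  have h6 : ex S x ∈ ex (-S) ⁻¹' C := by
    show ex (-S) (ex S x) ∈ C
    rw [ex_neg_ex]; exact hxC
  rw [← e2 h6]
  simp only [ex_neg_ex]

/-- Replace `dev` by `exp(S0) ∘ dev`. -/
theorem exists_base_change (D : Geom V Y) {S0 : V →L[ℝ] V} (hS0 : S0 ∈ D.P) :
    ∃ D' : Geom V Y, (∀ y, dom D.dev y = univ ↔ dom D'.dev y = univ) ∧
      (∀ S ∈ D'.P, ∃ R ∈ D.P, ∀ y, FR D'.dev y S = FR D.dev y R) ∧
      (∀ R ∈ D.P, ∃ S ∈ D'.P, ∀ y, FR D'.dev y S = FR D.dev y R) ∧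
      ∀ y, FR D'.dev y 0 = FR D.dev y S0 := by
  have hP := D.cartan
  obtain ⟨e, he, he'⟩ := base_homeo S0
  have hop' : ∀ y, ∃ T ∈ D.P, ∀ z, ‖ex T (ex S0 z)‖ = ‖ex (D.op y) z‖ := by
    intro y
    obtain ⟨T, hT, h1⟩ := base_norm hP (D.op_mem y) (D.P.neg_mem hS0)
    refine ⟨T, hT, fun z => ?_⟩
    rw [← h1, ex_neg_ex]
  choose op' hop'P hop'e using hop'
  have hloc : IsLocalHomeomorph fun y => ex S0 (D.dev y) := by
    have h1 := e.isLocalHomeomorph.comp D.dev_local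
    have h2 : ⇑e ∘ D.dev = fun y => ex S0 (D.dev y) := funext fun y => he _
    rwa [h2] at h1
  have hnorm : ∀ y v, ‖ex (op' y) v‖ = ‖ex (D.op y) (ex (-S0) v)‖ := by
    intro y v
    rw [← hop'e, ex_ex_neg]
  have hsub : ∀ y x, ‖ex (op' y) (x - ex S0 (D.dev y))‖ = ‖ex (D.op y) (ex (-S0) x - D.dev y)‖ := by
    intro y x
    rw [hnorm, map_sub (ex (-S0)), ex_neg_ex]
  let D' : Geom V Y :=
    { dev := fun y => ex S0 (D.dev y)
      dev_local := hloc
      P := D.P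
      cartan := hP
      op := op'
      op_mem := hop'P
      r0 := D.r0
      hr0 := D.hr0
      A := D.A
      hA := D.hA
      ball := by
        intro y x hx
        rw [hsub] at hx
        have h1 := D.ball y _ hx
        have h2 := (base_dom (dev' := fun y => ex S0 (D.dev y)) (fun _ => rfl) y (ex (-S0) x)).2 h1
        rwa [ex_ex_neg] at h2
      hop := by
        intro y x hx v
        rw [hsub] at hx
        have h1 : ex (-S0) x ∈ dom D.dev y := D.ball y _ (by linarith [D.hr0])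
        have h2 := base_sec (dev' := fun y => ex S0 (D.dev y)) D.dev_local hloc (fun _ => rfl) y h1
        rw [ex_ex_neg] at h2
        rw [h2, hnorm, hnorm]
        exact D.hop y _ hx _ }
  have hdev : ∀ y, D'.dev y = ex S0 (D.dev y) := fun y => rfl
  have hFR : ∀ S R : V →L[ℝ] V, (∀ z, ‖ex S (ex S0 z)‖ = ‖ex R z‖) →
      ∀ y, FR D'.dev y S = FR D.dev y R := by
    intro S R h y
    unfold FR
    rw [base_rad hdev y h]
  refine ⟨D', ?_, ?_, ?_, ?_⟩
  · intro y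
    constructor
    · intro h
      rw [eq_univ_iff_forall]
      intro x
      rw [← ex_ex_neg S0 x, base_dom hdev y, h]
      trivial
    · intro h
      rw [eq_univ_iff_forall]
      intro x
      rw [← base_dom hdev y, h]
      trivial
  · intro S hS
    obtain ⟨R, hR, h1⟩ := base_norm hP hS hS0
    exact ⟨R, hR, hFR S R h1⟩
  · intro R hR
    obtain ⟨S, hS, h1⟩ := base_norm hP hR (D.P.neg_mem hS0)
    refine ⟨S, hS, hFR S R fun z => ?_⟩
    rw [← h1, ex_neg_ex]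
  · apply hFR
    intro z
    rw [ex_zero, one_apply_eq_self]

/-- the infimum of `FR` over `P` -/
noncomputable def baseM (dev : Y → V) (P : Submodule ℝ (V →L[ℝ] V)) (y : Y) : ℝ :=
  ⨅ S : P, FR dev y (S : V →L[ℝ] V)

theorem FR_nonneg (dev : Y → V) (y : Y) (S : V →L[ℝ] V) : 0 ≤ FR dev y S :=
  inv_nonneg.2 (rad_nonneg y _)

theorem baseM_bdd (dev : Y → V) (P : Submodule ℝ (V →L[ℝ] V)) (y : Y) :
    BddBelow (range fun S : P => FR dev y (S : V →L[ℝ] V)) := by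
  refine ⟨0, ?_⟩
  rintro _ ⟨S, rfl⟩
  exact FR_nonneg dev y S

theorem baseM_le (dev : Y → V) {P : Submodule ℝ (V →L[ℝ] V)} (y : Y) {S : V →L[ℝ] V}
    (hS : S ∈ P) : baseM dev P y ≤ FR dev y S :=
  ciInf_le (baseM_bdd dev P y) (⟨S, hS⟩ : P)

theorem baseM_nonneg (dev : Y → V) (P : Submodule ℝ (V →L[ℝ] V)) (y : Y) : 0 ≤ baseM dev P y :=
  Real.iInf_nonneg fun S => FR_nonneg dev y S

theorem base_exists_lt {dev : Y → V} {P : Submodule ℝ (V →L[ℝ] V)} {y : Y} {c : ℝ}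
    (h : baseM dev P y < c) : ∃ S ∈ P, FR dev y S < c := by
  obtain ⟨S, hS⟩ := exists_lt_of_ciInf_lt h
  exact ⟨S, S.2, hS⟩

/-- A positive maximum of `baseM` is impossible. -/
theorem caseE {D : Geom V Y} (hinc : ∀ y, dom D.dev y ≠ univ) {y0 : Y}
    (hpos : 0 < baseM D.dev D.P y0) (hmax' : ∀ y, baseM D.dev D.P y ≤ baseM D.dev D.P y0) :
    False := by
  -- the sublevel set is bounded
  have hbdd : ∃ N : ℝ, ∀ S ∈ D.P, N ≤ ‖S‖ → baseM D.dev D.P y0 + 1 < FR D.dev y0 S := by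
    by_contra hcon
    push Not at hcon
    obtain ⟨ζ, hζ, hζ1, hray⟩ := exists_ray hinc y0 hcon
    have hlim : Tendsto (fun t : ℝ => Real.exp (-t) * FR D.dev y0 0) atTop (𝓝 (0 * FR D.dev y0 0)) :=
      (Real.tendsto_exp_neg_atTop_nhds_zero).mul_const _
    rw [zero_mul] at hlim
    obtain ⟨t, ht, ht0⟩ := ((hlim.eventually_lt_const hpos).and (eventually_ge_atTop 0)).exists
    have := hray t ht0
    have h2 := baseM_le D.dev y0 (D.P.smul_mem t hζ)
    linarith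
  obtain ⟨N, hN⟩ := hbdd
  have : FiniteDimensional ℝ (V →L[ℝ] V) := inferInstance
  have : ProperSpace (V →L[ℝ] V) := FiniteDimensional.proper ℝ _
  have hcpt : IsCompact ((D.P : Set (V →L[ℝ] V)) ∩ Metric.closedBall 0 N) :=
    (isCompact_closedBall _ _).inter_left D.P.closed_of_finiteDimensional
  obtain ⟨S1, hS1, hlt1⟩ := base_exists_lt (lt_add_one (baseM D.dev D.P y0))
  have hS1m : S1 ∈ (D.P : Set (V →L[ℝ] V)) ∩ Metric.closedBall 0 N := by
    refine ⟨hS1, ?_⟩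
    rw [mem_closedBall_zero_iff]
    by_contra hcon
    push Not at hcon
    exact absurd (hN S1 hS1 hcon.le) (not_lt.2 hlt1.le)
  have hcont : ContinuousOn (fun S : V →L[ℝ] V => FR D.dev y0 S)
      ((D.P : Set (V →L[ℝ] V)) ∩ Metric.closedBall 0 N) := by
    intro S hS
    apply ContinuousAt.continuousWithinAt
    exact ContinuousAt.comp (x := S) (f := fun S : V →L[ℝ] V => (y0, S))
      (g := fun p : Y × (V →L[ℝ] V) => FR D.dev p.1 p.2) (FR_continuousAt hinc y0 hS.1)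
      (by fun_prop)
  obtain ⟨S0, hS0, hmin⟩ := hcpt.exists_isMinOn ⟨S1, hS1m⟩ hcont
  have hmin' : ∀ S ∈ D.P, FR D.dev y0 S0 ≤ FR D.dev y0 S := by
    intro S hS
    by_cases hSN : ‖S‖ ≤ N
    · exact hmin ⟨hS, mem_closedBall_zero_iff.2 hSN⟩
    · push Not at hSN
      have h2 := hN S hS hSN.le
      have h3 : FR D.dev y0 S0 ≤ FR D.dev y0 S1 := hmin hS1m
      linarith
  have hmax : ∀ y, ∀ δ > 0, ∃ S ∈ D.P, FR D.dev y S < FR D.dev y0 S0 + δ := by
    intro y δ hδ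
    apply base_exists_lt
    have h4 : baseM D.dev D.P y0 ≤ FR D.dev y0 S0 := baseM_le D.dev y0 hS0.1
    linarith [hmax' y]
  obtain ⟨D', hdom, hf, hb, h0⟩ := exists_base_change D hS0.1
  refine caseE_core (D := D') (fun y hy => hinc y ((hdom y).2 hy)) (y0 := y0) ?_ ?_
  · intro S hS
    obtain ⟨R, hR, hRy⟩ := hf S hS
    rw [h0, hRy]
    exact hmin' R hR
  · intro y δ hδ
    obtain ⟨R, hR, hlt⟩ := hmax y δ hδ
    obtain ⟨S, hS, hSy⟩ := hb R hR
    exact ⟨S, hS, by rw [hSy, h0]; exact hlt⟩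

/-- If the infimum of `FR` vanishes there is a slab. -/
theorem slab_exists {D : Geom V Y} (hinc : ∀ y, dom D.dev y ≠ univ) {y : Y}
    (h : baseM D.dev D.P y ≤ 0) : ∃ z ∈ D.P, ‖z‖ = 1 ∧ ∃ c > 0, Slab D.dev y z c := by
  have h1 : ∀ ε > 0, ∃ S ∈ D.P, FR D.dev y S < ε := fun ε hε =>
    base_exists_lt (lt_of_le_of_lt h hε)
  obtain ⟨z, hz, hz1, hray⟩ := exists_ray hinc y (B := 1)
    (fun N => exists_far_of_small hinc y h1 N)
  exact ⟨z, hz, hz1, _, rad_ex_pos hinc y D.P.zero_mem, slab_of_ray hinc hz hz1 hray⟩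

end Pool.Agent.Helper2.RG
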