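import Pool.Agent.Helper2.RG.CaseE1

/-! Module CaseE: the case `inf FR > 0` (barycentre and second order argument). -/

set_option autoImplicit false
set_option linter.unusedSectionVars false

open Set Filter Topology

namespace Pool.Agent.Helper2.RG

open Pool.Agent.Helper2.MK Pool.Agent.Helper50.HL Pool.Agent.Helper2.RO

/-- The scalar part of the contradiction: `l` weights, `sg i = ⟪ν i, S (ν i)⟫`, `s = ‖S‖`. -/
theorem ce_scalar {n : ℕ} {l sg rho : Fin n → ℝ} {i0 : Fin n} {s t C : ℝ} (hl : ∀ i, 0 < l i)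
    (hl1 : ∑ i, l i = 1) (hsg : ∑ i, l i * sg i = 0) (hrho : ∑ i, l i * rho i = 0)
    (hrho0 : rho i0 = 1) (hs : 0 ≤ s) (ht : 0 < t) (hC : 0 < C) (hCs : C * s ≤ 1 / 2)
    (hsg0 : |sg i0| ≤ s) (h8 : 8 * C * t ≤ 1) (hlt : t ≤ l i0)
    (hsmall : t * (8 * C * l i0 + 4) < l i0 ^ 2)
    (hI : ∀ i, 1 - 2 * sg i + s ^ 2 + sg i ^ 2 - C * s ^ 3 ≤ 1 + 2 * t * rho i + t ^ 2) :
    False := by
  have hl0 := hl i0
  have hl01 : l i0 ≤ 1 := by
    rw [← hl1]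
    exact Finset.single_le_sum (fun i _ => (hl i).le) (Finset.mem_univ i0)
  -- sum
  have hsum : ∑ i, l i * (1 - 2 * sg i + s ^ 2 + sg i ^ 2 - C * s ^ 3) ≤
      ∑ i, l i * (1 + 2 * t * rho i + t ^ 2) :=
    Finset.sum_le_sum fun i _ => mul_le_mul_of_nonneg_left (hI i) (hl i).le
  have e1 : ∑ i, l i * (1 - 2 * sg i + s ^ 2 + sg i ^ 2 - C * s ^ 3) =
      (1 + s ^ 2 - C * s ^ 3) * ∑ i, l i - 2 * ∑ i, l i * sg i + ∑ i, l i * sg i ^ 2 := by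
    rw [Finset.mul_sum, Finset.mul_sum, ← Finset.sum_sub_distrib, ← Finset.sum_add_distrib]
    exact Finset.sum_congr rfl fun i _ => by ring
  have e2 : ∑ i, l i * (1 + 2 * t * rho i + t ^ 2) =
      (1 + t ^ 2) * ∑ i, l i + 2 * t * ∑ i, l i * rho i := by
    rw [Finset.mul_sum, Finset.mul_sum, ← Finset.sum_add_distrib]
    exact Finset.sum_congr rfl fun i _ => by ring
  rw [e1, e2, hl1, hsg, hrho] at hsum
  have hQ : l i0 * sg i0 ^ 2 ≤ ∑ i, l i * sg i ^ 2 :=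
    Finset.single_le_sum (f := fun i => l i * sg i ^ 2)
      (fun i _ => mul_nonneg (hl i).le (sq_nonneg _)) (Finset.mem_univ i0)
  have hQ0 : 0 ≤ l i0 * sg i0 ^ 2 := mul_nonneg hl0.le (sq_nonneg _)
  have hCs3 : C * s ^ 3 ≤ s ^ 2 / 2 := by
    have : C * s ^ 3 = (C * s) * s ^ 2 := by ring
    rw [this]
    have := mul_le_mul_of_nonneg_right hCs (sq_nonneg s)
    linarith
  have hst : s ≤ 2 * t := by
    have h1 : s ^ 2 ≤ (2 * t) ^ 2 := by nlinarith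
    exact (sq_le_sq₀ hs (by positivity)).1 h1
  have hs3 : C * s ^ 3 ≤ 8 * C * t ^ 3 := by
    have h1 : s ^ 3 ≤ (2 * t) ^ 3 := by gcongr
    have h2 := mul_le_mul_of_nonneg_left h1 hC.le
    calc C * s ^ 3 ≤ C * (2 * t) ^ 3 := h2
      _ = _ := by ring
  -- the defects
  have hd : ∀ i, -sg i - t * rho i ≤ t ^ 2 := by
    intro i
    have h1 := hI i
    have h2 : 8 * C * t ^ 3 ≤ t ^ 2 := by
      have : 8 * C * t ^ 3 = (8 * C * t) * t ^ 2 := by ring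
      rw [this]
      have := mul_le_mul_of_nonneg_right h8 (sq_nonneg t)
      linarith
    nlinarith [sq_nonneg s, sq_nonneg (sg i)]
  have hdsum : ∑ i, l i * (-sg i - t * rho i) = 0 := by
    have : ∑ i, l i * (-sg i - t * rho i) = -(∑ i, l i * sg i) - t * ∑ i, l i * rho i := by
      rw [Finset.mul_sum, ← Finset.sum_neg_distrib, ← Finset.sum_sub_distrib]
      exact Finset.sum_congr rfl fun i _ => by ring
    rw [this, hsg, hrho]
    ring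
  have hd0 : -t ^ 2 ≤ l i0 * (-sg i0 - t * rho i0) := by
    have h1 : ∑ i ∈ Finset.univ.erase i0, l i * (-sg i - t * rho i) ≤
        ∑ i ∈ Finset.univ.erase i0, l i * t ^ 2 :=
      Finset.sum_le_sum fun i _ => mul_le_mul_of_nonneg_left (hd i) (hl i).le
    have h2 : ∑ i ∈ Finset.univ.erase i0, l i * t ^ 2 ≤ ∑ i, l i * t ^ 2 :=
      Finset.sum_le_sum_of_subset_of_nonneg (Finset.erase_subset _ _)
        fun i _ _ => mul_nonneg (hl i).le (sq_nonneg _)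
    have h2' : ∑ i, l i * t ^ 2 = t ^ 2 := by rw [← Finset.sum_mul, hl1, one_mul]
    rw [h2'] at h2
    have h3 := Finset.add_sum_erase Finset.univ (fun i => l i * (-sg i - t * rho i))
      (Finset.mem_univ i0)
    rw [hdsum] at h3
    linarith
  rw [hrho0, mul_one] at hd0
  -- `- sg i0 ≥ t - t ^ 2 / l i0`
  set u := -sg i0 with hu
  have hu1 : l i0 * t - t ^ 2 ≤ l i0 * u := by linarith
  have hu0 : 0 ≤ l i0 * t - t ^ 2 := by nlinarith
  have hu2 : (l i0 * t - t ^ 2) ^ 2 ≤ (l i0 * u) ^ 2 := by gcongr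
  have hus : u ^ 2 ≤ s ^ 2 := by
    rw [hu, neg_sq, ← sq_abs]
    gcongr
  have husg : u ^ 2 = sg i0 ^ 2 := by rw [hu, neg_sq]
  have hfin : (1 + l i0) * u ^ 2 ≤ t ^ 2 + 8 * C * t ^ 3 := by
    rw [husg] at hus ⊢
    nlinarith
  -- multiply by `l i0 ^ 2`
  have h9 : (1 + l i0) * (l i0 * t - t ^ 2) ^ 2 ≤ l i0 ^ 2 * (t ^ 2 + 8 * C * t ^ 3) := by
    calc (1 + l i0) * (l i0 * t - t ^ 2) ^ 2 ≤ (1 + l i0) * (l i0 * u) ^ 2 :=
          mul_le_mul_of_nonneg_left hu2 (by linarith)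
      _ = l i0 ^ 2 * ((1 + l i0) * u ^ 2) := by ring
      _ ≤ _ := mul_le_mul_of_nonneg_left hfin (sq_nonneg _)
  have h10 : (1 + l i0) * (l i0 - t) ^ 2 ≤ l i0 ^ 2 * (1 + 8 * C * t) := by
    have h11 : t ^ 2 * ((1 + l i0) * (l i0 - t) ^ 2) ≤ t ^ 2 * (l i0 ^ 2 * (1 + 8 * C * t)) := by
      nlinarith
    exact le_of_mul_le_mul_left h11 (by positivity)
  have a1 := mul_lt_mul_of_pos_left hsmall hl0
  have a2 : 0 ≤ l i0 * t * (1 - l i0) := mul_nonneg (mul_nonneg hl0.le ht.le) (by linarith)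
  have a3 : 0 ≤ (1 + l i0) * t ^ 2 := mul_nonneg (by linarith) (sq_nonneg t)
  linarith

variable {V Y : Type*} [NormedAddCommGroup V] [InnerProductSpace ℝ V] [FiniteDimensional ℝ V]
    [TopologicalSpace Y] [T2Space Y] {D : Geom V Y}
    (hinc : ∀ y, dom D.dev y ≠ univ)
include hinc

/-- E5: contradiction -/
theorem caseE_core {y0 : Y} (hmin : ∀ S ∈ D.P, FR D.dev y0 0 ≤ FR D.dev y0 S)
    (hmax : ∀ y, ∀ δ > 0, ∃ S ∈ D.P, FR D.dev y S < FR D.dev y0 0 + δ) : False := by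
  have hP := D.cartan
  have hdev := D.dev_local
  obtain ⟨n, l, ν, hl, hl1, hν, hbal⟩ := barycentre hinc hmin
  set r := rad D.dev y0 (ex (0 : V →L[ℝ] V)) with hr
  have hrpos : 0 < r := rad_ex_pos hinc y0 D.P.zero_mem
  have hstar := fun i => star_ineq hinc (hν i).1 (hν i).2
  choose η hη hη1 hην ε hε hev using hstar
  obtain ⟨C, hC, hso⟩ := second_order hP
  -- the common radius
  obtain ⟨ε0, hε0, hε0i, hε01, hε0C⟩ : ∃ ε0 > 0, (∀ i, ε0 ≤ ε i) ∧ ε0 ≤ 1 ∧ C * ε0 ≤ 1 / 2 := by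
    have h1 : ∀ᶠ e in 𝓝[>] (0 : ℝ), ∀ i, e ≤ ε i := by
      rw [eventually_all]
      intro i
      filter_upwards [Ioc_mem_nhdsGT (hε i)] with e he
      exact he.2
    have h2 : ∀ᶠ e in 𝓝[>] (0 : ℝ), 0 < e ∧ e ≤ 1 := by
      filter_upwards [Ioc_mem_nhdsGT one_pos] with e he
      exact he
    have h3 : ∀ᶠ e in 𝓝[>] (0 : ℝ), C * e ≤ 1 / 2 := by
      filter_upwards [Ioc_mem_nhdsGT (show (0 : ℝ) < 1 / (2 * C) by positivity)] with e he
      have h4 := mul_le_mul_of_nonneg_left he.2 hC.le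
      calc C * e ≤ C * (1 / (2 * C)) := h4
        _ = 1 / 2 := by field_simp
    obtain ⟨e, ⟨h4, h5⟩, h6⟩ := ((h1.and h2).and h3).exists
    exact ⟨e, h5.1, h4, h5.2, h6⟩
  -- all inequalities for small displacements
  have hmain : ∀ᶠ ξ in 𝓝 (0 : V), ∃ S ∈ D.P, ‖S‖ ≤ ε0 ∧ ∀ i,
      ‖ex (-S) (ν i)‖ ≤ ‖ν i - top (η i) ξ‖ := by
    have h1 := robust hinc hmin hmax hε0
    have h2 : ∀ᶠ y in 𝓝 y0, ∀ i, ∀ S ∈ D.P, ‖S‖ ≤ ε i → FR D.dev y S ≤ FR D.dev y0 0 →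
        ‖ex (-S) (ν i)‖ ≤ ‖ν i - r⁻¹ • top (η i) (D.dev y - D.dev y0)‖ := by
      rw [eventually_all]
      exact hev
    have h3 : ∀ᶠ x in 𝓝 (D.dev y0), ∃ S ∈ D.P, ‖S‖ ≤ ε0 ∧ ∀ i,
        ‖ex (-S) (ν i)‖ ≤ ‖ν i - r⁻¹ • top (η i) (x - D.dev y0)‖ := by
      rw [← hdev.map_nhds_eq y0, eventually_map]
      filter_upwards [h1, h2] with y hy1 hy2
      obtain ⟨S, hS, hSε, hFR⟩ := hy1
      exact ⟨S, hS, hSε, fun i => hy2 i S hS (hSε.trans (hε0i i)) hFR⟩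
    have h4 : Tendsto (fun ξ : V => D.dev y0 + r • ξ) (𝓝 0) (𝓝 (D.dev y0)) := by
      have : Continuous fun ξ : V => D.dev y0 + r • ξ := by fun_prop
      simpa using this.tendsto 0
    filter_upwards [h4.eventually h3] with ξ hξ
    obtain ⟨S, hS, hSε, hi⟩ := hξ
    refine ⟨S, hS, hSε, fun i => ?_⟩
    have := hi i
    rwa [add_sub_cancel_left, map_smul, smul_smul, inv_mul_cancel₀ hrpos.ne', one_smul] at this
  -- the inequalities (I_i)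
  have hI : ∀ᶠ ξ in 𝓝 (0 : V), ∃ S ∈ D.P, ‖S‖ ≤ ε0 ∧ ∀ i,
      1 - 2 * inner ℝ (ν i) (S (ν i)) + ‖S‖ ^ 2 + inner ℝ (ν i) (S (ν i)) ^ 2 - C * ‖S‖ ^ 3 ≤
        1 - 2 * inner ℝ (ν i) ξ + ‖ξ‖ ^ 2 := by
    filter_upwards [hmain] with ξ hξ
    obtain ⟨S, hS, hSε, hi⟩ := hξ
    refine ⟨S, hS, hSε, fun i => ?_⟩
    refine (hso (η i) (hη i) (hη1 i) S hS (hSε.trans hε01) (ν i) (hην i) (hν i).1).trans ?_
    have h1 : ‖ex (-S) (ν i)‖ ^ 2 ≤ ‖ν i - top (η i) ξ‖ ^ 2 := by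
      have := hi i
      gcongr
    refine h1.trans ?_
    have htop : top (η i) (ν i) = ν i := top_of_fix hP (hη i) (hη1 i) (hην i)
    rw [norm_sub_sq_real, (hν i).1, ← top_symm hP (hη i), htop]
    have h2 := norm_top_le hP (hη i) ξ
    have h3 : ‖top (η i) ξ‖ ^ 2 ≤ ‖ξ‖ ^ 2 := by gcongr
    linarith
  -- the barycentre vanishes
  set μ : V := ∑ i, l i • ν i with hμ
  have hsumI : ∀ ξ : V, ∑ i, l i * (1 - 2 * inner ℝ (ν i) ξ + ‖ξ‖ ^ 2) =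
      1 - 2 * inner ℝ μ ξ + ‖ξ‖ ^ 2 := by
    intro ξ
    have h1 : inner ℝ μ ξ = ∑ i, l i * inner ℝ (ν i) ξ := by
      rw [hμ, sum_inner]
      refine Finset.sum_congr rfl fun i _ => ?_
      rw [real_inner_smul_left]
    calc ∑ i, l i * (1 - 2 * inner ℝ (ν i) ξ + ‖ξ‖ ^ 2)
        = (1 + ‖ξ‖ ^ 2) * ∑ i, l i - 2 * ∑ i, l i * inner ℝ (ν i) ξ := by
          rw [Finset.mul_sum, Finset.mul_sum, ← Finset.sum_sub_distrib]
          exact Finset.sum_congr rfl fun i _ => by ring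
      _ = _ := by rw [hl1, h1]; ring
  have ha : ∀ᶠ ξ in 𝓝 (0 : V), 2 * inner ℝ μ ξ ≤ ‖ξ‖ ^ 2 := by
    filter_upwards [hI] with ξ hξ
    obtain ⟨S, hS, hSε, hi⟩ := hξ
    have h1 : ∑ i, l i * (1 - 2 * inner ℝ (ν i) (S (ν i)) + ‖S‖ ^ 2 +
        inner ℝ (ν i) (S (ν i)) ^ 2 - C * ‖S‖ ^ 3) ≤
        ∑ i, l i * (1 - 2 * inner ℝ (ν i) ξ + ‖ξ‖ ^ 2) :=
      Finset.sum_le_sum fun i _ => mul_le_mul_of_nonneg_left (hi i) (hl i).le
    rw [hsumI] at h1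
    have h2 : ∑ i, l i * (1 - 2 * inner ℝ (ν i) (S (ν i)) + ‖S‖ ^ 2 +
        inner ℝ (ν i) (S (ν i)) ^ 2 - C * ‖S‖ ^ 3) =
        (1 + ‖S‖ ^ 2 - C * ‖S‖ ^ 3) * ∑ i, l i - 2 * ∑ i, l i * inner ℝ (ν i) (S (ν i)) +
          ∑ i, l i * inner ℝ (ν i) (S (ν i)) ^ 2 := by
      rw [Finset.mul_sum, Finset.mul_sum, ← Finset.sum_sub_distrib, ← Finset.sum_add_distrib]
      exact Finset.sum_congr rfl fun i _ => by ring
    rw [h2, hl1, hbal S hS] at h1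
    have h3 : 0 ≤ ∑ i, l i * inner ℝ (ν i) (S (ν i)) ^ 2 :=
      Finset.sum_nonneg fun i _ => mul_nonneg (hl i).le (sq_nonneg _)
    have h4 : C * ‖S‖ ^ 3 ≤ ‖S‖ ^ 2 / 2 := by
      have h5 : C * ‖S‖ ≤ 1 / 2 := (mul_le_mul_of_nonneg_left hSε hC.le).trans hε0C
      have h6 := mul_le_mul_of_nonneg_right h5 (sq_nonneg ‖S‖)
      calc C * ‖S‖ ^ 3 = C * ‖S‖ * ‖S‖ ^ 2 := by ring
        _ ≤ _ := by linarith
    nlinarith [sq_nonneg ‖S‖]
  have hμ0 : μ = 0 := by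
    by_contra hne
    have hpos : 0 < ‖μ‖ := norm_pos_iff.2 hne
    have h1 : Tendsto (fun t : ℝ => t • μ) (𝓝[>] 0) (𝓝 0) := by
      have h2 : Continuous fun t : ℝ => t • μ := by fun_prop
      have h3 := h2.tendsto 0
      rw [zero_smul] at h3
      exact h3.mono_left nhdsWithin_le_nhds
    have h4 : ∀ᶠ t in 𝓝[>] (0 : ℝ), 0 < t ∧ t ≤ 1 := by
      filter_upwards [Ioc_mem_nhdsGT one_pos] with e he
      exact he
    obtain ⟨t, h5, h6, h7⟩ := ((h1.eventually ha).and h4).exists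
    rw [inner_smul_right, real_inner_self_eq_norm_sq, norm_smul, Real.norm_of_nonneg h6.le] at h5
    have h8 : 0 < ‖μ‖ ^ 2 := by positivity
    nlinarith [mul_pos h6 h8]
  -- the index
  obtain ⟨i0⟩ : Nonempty (Fin n) := by
    by_contra hcon
    rw [not_nonempty_iff] at hcon
    rw [Finset.univ_eq_empty, Finset.sum_empty] at hl1
    exact zero_ne_one hl1
  have h1 : Tendsto (fun t : ℝ => -(t • ν i0)) (𝓝[>] 0) (𝓝 0) := by
    have h2 : Continuous fun t : ℝ => -(t • ν i0) := by fun_prop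
    have h3 := h2.tendsto 0
    rw [zero_smul, neg_zero] at h3
    exact h3.mono_left nhdsWithin_le_nhds
  have hpos1 : 0 < 1 / (8 * C) := by positivity
  have hK : 0 < 8 * C * l i0 + 4 := by have := hl i0; positivity
  have hpos2 : 0 < l i0 ^ 2 / (8 * C * l i0 + 4) := by have := hl i0; positivity
  have h4 : ∀ᶠ t in 𝓝[>] (0 : ℝ), (0 < t ∧ t ≤ 1 / (8 * C)) ∧ t ≤ l i0 ∧
      t < l i0 ^ 2 / (8 * C * l i0 + 4) := by
    filter_upwards [Ioc_mem_nhdsGT hpos1, Ioc_mem_nhdsGT (hl i0), Ioo_mem_nhdsGT hpos2] with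
      t a1 a2 a3
    exact ⟨a1, a2.2, a3.2⟩
  obtain ⟨t, ⟨S, hS, hSε, hi⟩, ⟨ht, ht1⟩, ht2, ht3⟩ := ((h1.eventually hI).and h4).exists
  refine ce_scalar (l := l) (sg := fun i => inner ℝ (ν i) (S (ν i)))
    (rho := fun i => inner ℝ (ν i) (ν i0)) (i0 := i0) (s := ‖S‖) (t := t) (C := C) hl hl1
    (hbal S hS) ?_ ?_ (norm_nonneg _) ht hC ?_ ?_ ?_ ht2 ?_ ?_
  · have h5 : inner ℝ μ (ν i0) = ∑ i, l i * inner ℝ (ν i) (ν i0) := by
      rw [hμ, sum_inner]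
      refine Finset.sum_congr rfl fun i _ => ?_
      rw [real_inner_smul_left]
    rw [← h5, hμ0, inner_zero_left]
  · rw [real_inner_self_eq_norm_sq, (hν i0).1, one_pow]
  · exact (mul_le_mul_of_nonneg_left hSε hC.le).trans hε0C
  · refine (abs_real_inner_le_norm _ _).trans ?_
    have h5 := S.le_opNorm (ν i0)
    rw [(hν i0).1, mul_one] at h5
    rw [(hν i0).1, one_mul]
    exact h5
  · have h5 := mul_le_mul_of_nonneg_left ht1 (show 0 ≤ 8 * C by positivity)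
    calc 8 * C * t ≤ 8 * C * (1 / (8 * C)) := h5
      _ = 1 := by field_simp
  · rwa [lt_div_iff₀ hK] at ht3
  · intro i
    have h5 := hi i
    rw [inner_neg_right, inner_smul_right, norm_neg, norm_smul, (hν i0).1, mul_one,
      Real.norm_of_nonneg ht.le] at h5
    linarith

end Pool.Agent.Helper2.RG
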