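import Pool.Agent.Helper2.RG.Supp
import Pool.Agent.Helper2.RO.Scal

/-! Module Conv: convexity of the inverse radius along rays `t ↦ FR y (t • ζ)`, behaviour at
infinity, and the robust minimum (E1, E2). -/

set_option autoImplicit false
set_option linter.unusedSectionVars false

open Set Filter Topology

namespace Pool.Agent.Helper2.RG

open Pool.Agent.Helper2.MK Pool.Agent.Helper50.HL Pool.Agent.Helper2.RO

variable {V Y : Type*} [NormedAddCommGroup V] [InnerProductSpace ℝ V] [FiniteDimensional ℝ V]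
    [TopologicalSpace Y] [T2Space Y] {D : Geom V Y}
    (hinc : ∀ y, dom D.dev y ≠ univ)

theorem isCompact_ballP (P : Submodule ℝ (V →L[ℝ] V)) (N : ℝ) :
    IsCompact {S : V →L[ℝ] V | S ∈ P ∧ ‖S‖ ≤ N} := by
  have hprop : ProperSpace (V →L[ℝ] V) := FiniteDimensional.proper ℝ _
  have hcl : IsClosed (P : Set (V →L[ℝ] V)) := P.closed_of_finiteDimensional
  have h := (isCompact_closedBall (0 : V →L[ℝ] V) N).inter_left hcl
  refine h.of_isClosed_subset ?_ ?_
  · exact hcl.inter (isClosed_le continuous_norm continuous_const)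
  · rintro S ⟨h1, h2⟩
    exact ⟨h1, by simpa using h2⟩

theorem isCompact_sphereP (P : Submodule ℝ (V →L[ℝ] V)) (N : ℝ) :
    IsCompact {S : V →L[ℝ] V | S ∈ P ∧ ‖S‖ = N} := by
  have hcl : IsClosed (P : Set (V →L[ℝ] V)) := P.closed_of_finiteDimensional
  refine (isCompact_ballP P N).of_isClosed_subset ?_ ?_
  · exact hcl.inter (isClosed_eq continuous_norm continuous_const)
  · rintro S ⟨h1, h2⟩
    exact ⟨h1, h2.le⟩

theorem mem_of_tendstoP (P : Submodule ℝ (V →L[ℝ] V)) {S : ℕ → (V →L[ℝ] V)} {ζ : V →L[ℝ] V}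
    (hS : ∀ j, S j ∈ P) (hlim : Tendsto S atTop (𝓝 ζ)) : ζ ∈ P := by
  have hcl : IsClosed (P : Set (V →L[ℝ] V)) := P.closed_of_finiteDimensional
  exact hcl.mem_of_tendsto hlim (Eventually.of_forall hS)

include hinc

/-- (HC) -/
theorem FR_conv (y : Y) {ζ : V →L[ℝ] V} (hζ : ζ ∈ D.P) (h1 : ‖ζ‖ = 1) {t T : ℝ} (h0 : 0 ≤ t)
    (hT : t ≤ T) : Real.sinh T * FR D.dev y (t • ζ) ≤
      Real.sinh (T - t) * FR D.dev y 0 + Real.sinh t * FR D.dev y (T • ζ) := by
  rcases eq_or_lt_of_le (h0.trans hT) with hT0 | hT0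
  · have ht : t = 0 := le_antisymm (by linarith) h0
    simp [← hT0, ht]
  set u : ℝ → ℝ := fun s => FR D.dev y (s • ζ) with hu
  have hu0 : u 0 = FR D.dev y 0 := by simp [hu]
  have hcont : Continuous u := by
    rw [continuous_iff_continuousAt]
    intro s
    have hc := FR_continuousAt hinc y (D.P.smul_mem s hζ)
    have hg : Continuous fun s : ℝ => ((y, s • ζ) : Y × (V →L[ℝ] V)) :=
      continuous_const.prodMk (continuous_id.smul continuous_const)
    exact ContinuousAt.comp (f := fun s : ℝ => ((y, s • ζ) : Y × (V →L[ℝ] V))) hc hg.continuousAt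
  have main : ∀ s ∈ Ioo (0 : ℝ) T, ∀ᶠ δ in 𝓝[>] (0 : ℝ),
      2 * Real.cosh δ * u s ≤ u (s + δ) + u (s - δ) := by
    intro s _
    have hS : s • ζ ∈ D.P := D.P.smul_mem s hζ
    obtain ⟨b, hb⟩ := exists_contact_ex hinc y hS
    obtain ⟨η, hη, hη1, hfix, hsupp⟩ := contact_support hinc hS hb
    set ℓ := ex ((2 : ℝ) • (s • ζ)) (b - D.dev y) with hℓdef
    have hr : 0 < rad D.dev y (ex (s • ζ)) := rad_ex_pos hinc y hS
    have heq := contact_eq hinc hS hb hη hη1 hfix hfix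
    set c := ‖top η (b - D.dev y)‖ * ‖ℓ‖ with hc
    have hbne : b - D.dev y ≠ 0 := by
      intro h
      have h2 := hb.2
      rw [h, map_zero, norm_zero] at h2
      exact hr.ne h2
    have hℓ0 : ℓ ≠ 0 := by
      intro h
      have h2 := ex_neg_ex ((2 : ℝ) • (s • ζ)) (b - D.dev y)
      rw [← hℓdef, h, map_zero] at h2
      exact hbne h2.symm
    have hne : ∀ S : V →L[ℝ] V, 0 < ‖ex S ℓ‖ := by
      intro S
      rw [norm_pos_iff]
      intro h
      have h2 := ex_neg_ex S ℓ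
      rw [h, map_zero] at h2
      exact hℓ0 h2.symm
    have hcpos : 0 < c := by
      rw [← heq]
      exact mul_pos hr (hne _)
    have hus : u s = ‖ex (-(s • ζ)) ℓ‖ / c := by
      show (rad D.dev y (ex (s • ζ)))⁻¹ = _
      rw [eq_div_iff hcpos.ne', ← heq, ← mul_assoc, inv_mul_cancel₀ hr.ne', one_mul]
    have hev : ∀ᶠ r in 𝓝 s, ‖ex (-(r • ζ)) ℓ‖ / c ≤ u r := by
      have hg : Continuous fun s : ℝ => ((y, s • ζ) : Y × (V →L[ℝ] V)) :=
        continuous_const.prodMk (continuous_id.smul continuous_const)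
      have h3 := hg.continuousAt (x := s) |>.eventually hsupp
      filter_upwards [h3] with r h4
      have h5 := h4 (D.P.smul_mem r hζ) ℓ hfix
      have hrr : 0 < rad D.dev y (ex (r • ζ)) := rad_ex_pos hinc y (D.P.smul_mem r hζ)
      show _ ≤ (rad D.dev y (ex (r • ζ)))⁻¹
      rw [div_le_iff₀ hcpos, ← div_eq_inv_mul, le_div_iff₀ hrr, mul_comm]
      exact h5
    have t1 : Tendsto (fun δ : ℝ => s + δ) (𝓝[>] 0) (𝓝 s) := by
      have : Tendsto (fun δ : ℝ => s + δ) (𝓝 0) (𝓝 (s + 0)) :=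
        (continuous_const.add continuous_id).tendsto 0
      rw [add_zero] at this
      exact this.mono_left nhdsWithin_le_nhds
    have t2 : Tendsto (fun δ : ℝ => s - δ) (𝓝[>] 0) (𝓝 s) := by
      have : Tendsto (fun δ : ℝ => s - δ) (𝓝 0) (𝓝 (s - 0)) :=
        (continuous_const.sub continuous_id).tendsto 0
      rw [sub_zero] at this
      exact this.mono_left nhdsWithin_le_nhds
    filter_upwards [t1.eventually hev, t2.eventually hev] with δ a1 a2
    have h2 := two_point D.cartan hη hη1 hζ h1 hfix s δ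
    rw [hus]
    calc 2 * Real.cosh δ * (‖ex (-(s • ζ)) ℓ‖ / c)
        = (2 * Real.cosh δ * ‖ex (-(s • ζ)) ℓ‖) / c := by ring
      _ ≤ (‖ex (-((s + δ) • ζ)) ℓ‖ + ‖ex (-((s - δ) • ζ)) ℓ‖) / c :=
          div_le_div_of_nonneg_right h2 hcpos.le
      _ = ‖ex (-((s + δ) • ζ)) ℓ‖ / c + ‖ex (-((s - δ) • ζ)) ℓ‖ / c := add_div _ _ _
      _ ≤ u (s + δ) + u (s - δ) := add_le_add a1 a2
  have h := hyp_convex hT0 hcont.continuousOn main t ⟨h0, hT⟩
  rw [hu0] at h
  exact h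

/-- `FR` is continuous at points of `P` for fixed `y` -/
theorem FR_continuousAt_snd (y : Y) {S : V →L[ℝ] V} (hS : S ∈ D.P) :
    ContinuousAt (fun S : V →L[ℝ] V => FR D.dev y S) S := by
  have hc := FR_continuousAt hinc y hS
  have hg : Continuous fun S : V →L[ℝ] V => ((y, S) : Y × (V →L[ℝ] V)) :=
    continuous_const.prodMk continuous_id
  exact ContinuousAt.comp (f := fun S : V →L[ℝ] V => ((y, S) : Y × (V →L[ℝ] V))) hc
    hg.continuousAt

theorem FR_continuousAt_fst (y : Y) {S : V →L[ℝ] V} (hS : S ∈ D.P) :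
    ContinuousAt (fun y : Y => FR D.dev y S) y := by
  have hc := FR_continuousAt hinc y hS
  have hg : Continuous fun y : Y => ((y, S) : Y × (V →L[ℝ] V)) :=
    continuous_id.prodMk continuous_const
  exact ContinuousAt.comp (f := fun y : Y => ((y, S) : Y × (V →L[ℝ] V))) hc hg.continuousAt

omit hinc in
theorem dir_facts {P : Submodule ℝ (V →L[ℝ] V)} {S : V →L[ℝ] V} (hS : S ∈ P) (h : 0 < ‖S‖) :
    ‖S‖⁻¹ • S ∈ P ∧ ‖‖S‖⁻¹ • S‖ = 1 ∧ ‖S‖ • (‖S‖⁻¹ • S) = S := by
  refine ⟨P.smul_mem _ hS, ?_, ?_⟩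
  · rw [norm_smul, norm_inv, norm_norm, inv_mul_cancel₀ h.ne']
  · rw [smul_smul, mul_inv_cancel₀ h.ne', one_smul]

theorem ray_limit (y : Y) {S : ℕ → (V →L[ℝ] V)} (hS : ∀ j, S j ∈ D.P)
    (hinf : Tendsto (fun j => ‖S j‖) atTop atTop) {B : ℝ} (hB : ∀ j, FR D.dev y (S j) ≤ B)
    {ζ : V →L[ℝ] V} (hlim : Tendsto (fun j => ‖S j‖⁻¹ • S j) atTop (𝓝 ζ)) :
    ∀ t : ℝ, 0 ≤ t → FR D.dev y (t • ζ) ≤ Real.exp (-t) * FR D.dev y 0 := by
  intro t ht
  have hζ : ζ ∈ D.P := mem_of_tendstoP D.P (fun j => D.P.smul_mem _ (hS j)) hlim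
  have hF0 : 0 < FR D.dev y 0 := FR_pos hinc y D.P.zero_mem
  have l1 : Tendsto (fun j => FR D.dev y (t • (‖S j‖⁻¹ • S j))) atTop (𝓝 (FR D.dev y (t • ζ))) := by
    have hc := FR_continuousAt_snd hinc y (D.P.smul_mem t hζ)
    exact hc.tendsto.comp (hlim.const_smul t)
  have l2 : Tendsto (fun j => Real.exp (-t) * FR D.dev y 0 +
      Real.sinh t * B * (Real.sinh ‖S j‖)⁻¹) atTop (𝓝 (Real.exp (-t) * FR D.dev y 0)) := by
    have h1 : Tendsto (fun j => Real.sinh ‖S j‖) atTop atTop := by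
      refine tendsto_atTop_mono (fun j => Real.self_le_sinh_iff.mpr (norm_nonneg _)) hinf
    have h2 := (h1.inv_tendsto_atTop).const_mul (Real.sinh t * B)
    rw [mul_zero] at h2
    have h3 := h2.const_add (Real.exp (-t) * FR D.dev y 0)
    rw [add_zero] at h3
    exact h3
  refine le_of_tendsto_of_tendsto l1 l2 ?_
  filter_upwards [hinf.eventually_ge_atTop (max t 1)] with j hj
  have hj1 : t ≤ ‖S j‖ := (le_max_left _ _).trans hj
  have hj0 : 0 < ‖S j‖ := lt_of_lt_of_le one_pos ((le_max_right _ _).trans hj)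
  obtain ⟨d1, d2, d3⟩ := dir_facts (hS j) hj0
  have hcv := FR_conv hinc y d1 d2 ht hj1
  rw [d3] at hcv
  have hsh : 0 < Real.sinh ‖S j‖ := Real.sinh_pos_iff.mpr hj0
  have hst : 0 ≤ Real.sinh t := Real.sinh_nonneg_iff.mpr ht
  have hexp : Real.sinh (‖S j‖ - t) ≤ Real.exp (-t) * Real.sinh ‖S j‖ := by
    rw [Real.sinh_eq, Real.sinh_eq]
    have e1 : Real.exp (‖S j‖ - t) = Real.exp (-t) * Real.exp ‖S j‖ := by
      rw [← Real.exp_add]
      congr 1
      ring
    have e2 : Real.exp (-t) * Real.exp (-‖S j‖) ≤ Real.exp (-(‖S j‖ - t)) := by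
      rw [← Real.exp_add]
      apply Real.exp_le_exp.mpr
      linarith
    rw [e1]
    nlinarith
  have h5 : Real.sinh ‖S j‖ * FR D.dev y (t • (‖S j‖⁻¹ • S j)) ≤
      Real.exp (-t) * Real.sinh ‖S j‖ * FR D.dev y 0 + Real.sinh t * B := by
    refine hcv.trans (add_le_add ?_ ?_)
    · exact mul_le_mul_of_nonneg_right hexp hF0.le
    · exact mul_le_mul_of_nonneg_left (hB j) hst
  rw [mul_comm, ← le_div_iff₀ hsh] at h5
  refine h5.trans (le_of_eq ?_)
  field_simp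

theorem exists_ray (y : Y) {B : ℝ}
    (h : ∀ N : ℝ, ∃ S ∈ D.P, N ≤ ‖S‖ ∧ FR D.dev y S ≤ B) :
    ∃ ζ ∈ D.P, ‖ζ‖ = 1 ∧ ∀ t : ℝ, 0 ≤ t → FR D.dev y (t • ζ) ≤ Real.exp (-t) * FR D.dev y 0 := by
  choose S hS hN hB using fun j : ℕ => h ((j : ℝ) + 1)
  have hpos : ∀ j, 0 < ‖S j‖ := fun j => by
    have := hN j
    have h2 : (0 : ℝ) ≤ (j : ℝ) := Nat.cast_nonneg j
    linarith
  have hmem : ∀ j, ‖S j‖⁻¹ • S j ∈ {S : V →L[ℝ] V | S ∈ D.P ∧ ‖S‖ = 1} := fun j =>
    ⟨(dir_facts (hS j) (hpos j)).1, (dir_facts (hS j) (hpos j)).2.1⟩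
  obtain ⟨ζ, hζ, φ, hφ, hlim⟩ := (isCompact_sphereP D.P 1).tendsto_subseq hmem
  refine ⟨ζ, hζ.1, hζ.2, ?_⟩
  refine ray_limit hinc y (S := S ∘ φ) (fun j => hS _) ?_ (fun j => hB _) hlim
  refine tendsto_atTop_mono (f := fun j : ℕ => (j : ℝ)) ?_ tendsto_natCast_atTop_atTop
  intro j
  have h1 := hN (φ j)
  have h2 : (j : ℝ) ≤ (φ j : ℝ) := by exact_mod_cast hφ.id_le j
  show (j : ℝ) ≤ ‖S (φ j)‖
  linarith

/-- a sequence with `FR → 0` leaves every bounded set -/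
theorem exists_far_of_small (y : Y) (h : ∀ ε > 0, ∃ S ∈ D.P, FR D.dev y S < ε) (N : ℝ) :
    ∃ S ∈ D.P, N ≤ ‖S‖ ∧ FR D.dev y S ≤ 1 := by
  by_contra hcon
  push Not at hcon
  have key : ∃ m > 0, ∀ S ∈ D.P, ‖S‖ ≤ N → m ≤ FR D.dev y S := by
    rcases (({S : V →L[ℝ] V | S ∈ D.P ∧ ‖S‖ ≤ N}) : Set (V →L[ℝ] V)).eq_empty_or_nonempty
      with he | hne
    · refine ⟨1, one_pos, fun S hS hN => ?_⟩
      have : S ∈ {S : V →L[ℝ] V | S ∈ D.P ∧ ‖S‖ ≤ N} := ⟨hS, hN⟩
      rw [he] at this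
      exact absurd this (notMem_empty _)
    · obtain ⟨S0, hS0, hmin⟩ := (isCompact_ballP D.P N).exists_isMinOn hne
        (f := fun S => FR D.dev y S)
        (fun S hS => (FR_continuousAt_snd hinc y hS.1).continuousWithinAt)
      exact ⟨FR D.dev y S0, FR_pos hinc y hS0.1, fun S hS hN => hmin ⟨hS, hN⟩⟩
  obtain ⟨m, hm, hmin⟩ := key
  obtain ⟨S, hS, hlt⟩ := h (min m 1) (lt_min hm one_pos)
  have h1 : FR D.dev y S < 1 := lt_of_lt_of_le hlt (min_le_right _ _)
  have h2 : FR D.dev y S < m := lt_of_lt_of_le hlt (min_le_left _ _)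
  have h3 : ‖S‖ < N := by
    by_contra hge
    exact absurd h1 (not_lt.mpr (hcon S hS (not_lt.mp hge)).le)
  exact absurd h2 (not_lt.mpr (hmin S hS h3.le))

theorem FR_ge_cosh {y0 : Y} (hmin : ∀ S ∈ D.P, FR D.dev y0 0 ≤ FR D.dev y0 S) {S : V →L[ℝ] V}
    (hS : S ∈ D.P) : FR D.dev y0 0 * Real.cosh ‖S‖ ≤ FR D.dev y0 S := by
  rcases eq_or_ne S 0 with rfl | hne
  · simp
  have hT : 0 < ‖S‖ := norm_pos_iff.mpr hne
  obtain ⟨d1, d2, d3⟩ := dir_facts hS hT
  set T := ‖S‖ with hTdef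
  have key : ∀ᶠ t in 𝓝[>] (0 : ℝ), FR D.dev y0 0 * Real.cosh (T - t) ≤
      Real.cosh t * FR D.dev y0 S := by
    have a1 : ∀ᶠ δ in 𝓝[>] (0 : ℝ), 0 < δ := eventually_mem_nhdsWithin
    have a2 : ∀ᶠ δ in 𝓝[>] (0 : ℝ), δ < T / 2 :=
      (eventually_lt_nhds (half_pos hT)).filter_mono nhdsWithin_le_nhds
    filter_upwards [a1, a2] with t b1 b2
    have hcv := FR_conv hinc y0 d1 d2 (t := 2 * t) (T := T) (by linarith) (by linarith)
    rw [d3] at hcv
    have h1 := hmin ((2 * t) • (T⁻¹ • S)) (D.P.smul_mem _ d1)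
    have hsT : 0 < Real.sinh T := Real.sinh_pos_iff.mpr hT
    have hst : 0 < Real.sinh t := Real.sinh_pos_iff.mpr b1
    have h2 : Real.sinh T * FR D.dev y0 0 ≤
        Real.sinh (T - 2 * t) * FR D.dev y0 0 + Real.sinh (2 * t) * FR D.dev y0 S :=
      (mul_le_mul_of_nonneg_left h1 hsT.le).trans hcv
    have e1 : Real.sinh T - Real.sinh (T - 2 * t) = 2 * Real.cosh (T - t) * Real.sinh t := by
      have r0 : ∀ a : ℝ, Real.sinh (a + t) - Real.sinh (a - t) =
          2 * Real.cosh a * Real.sinh t := by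
        intro a
        rw [Real.sinh_add, Real.sinh_sub]
        ring
      have r1 := r0 (T - t)
      rw [show T - t + t = T by ring, show T - t - t = T - 2 * t by ring] at r1
      exact r1
    have e2 : Real.sinh (2 * t) = 2 * Real.sinh t * Real.cosh t := Real.sinh_two_mul t
    have h3 : 2 * Real.sinh t * (FR D.dev y0 0 * Real.cosh (T - t)) ≤
        2 * Real.sinh t * (Real.cosh t * FR D.dev y0 S) := by
      have : (Real.sinh T - Real.sinh (T - 2 * t)) * FR D.dev y0 0 ≤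
          Real.sinh (2 * t) * FR D.dev y0 S := by linarith
      rw [e1, e2] at this
      linarith
    exact le_of_mul_le_mul_left h3 (by linarith)
  have l1 : Tendsto (fun t : ℝ => FR D.dev y0 0 * Real.cosh (T - t)) (𝓝[>] 0)
      (𝓝 (FR D.dev y0 0 * Real.cosh T)) := by
    have hc : Continuous fun t : ℝ => FR D.dev y0 0 * Real.cosh (T - t) :=
      continuous_const.mul (Real.continuous_cosh.comp (continuous_const.sub continuous_id))
    have := hc.tendsto 0
    simp only [sub_zero] at this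
    exact this.mono_left nhdsWithin_le_nhds
  have l2 : Tendsto (fun t : ℝ => Real.cosh t * FR D.dev y0 S) (𝓝[>] 0)
      (𝓝 (FR D.dev y0 S)) := by
    have hc : Continuous fun t : ℝ => Real.cosh t * FR D.dev y0 S :=
      Real.continuous_cosh.mul continuous_const
    have := hc.tendsto 0
    simp only [Real.cosh_zero, one_mul] at this
    exact this.mono_left nhdsWithin_le_nhds
  exact le_of_tendsto_of_tendsto l1 l2 key

/-- E2: near `y0` the minimum stays near `0`. -/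
theorem robust {y0 : Y} (hmin : ∀ S ∈ D.P, FR D.dev y0 0 ≤ FR D.dev y0 S)
    (hmax : ∀ y, ∀ δ > 0, ∃ S ∈ D.P, FR D.dev y S < FR D.dev y0 0 + δ) {ε : ℝ} (hε : 0 < ε) :
    ∀ᶠ y in 𝓝 y0, ∃ S ∈ D.P, ‖S‖ ≤ ε ∧ FR D.dev y S ≤ FR D.dev y0 0 := by
  set m := FR D.dev y0 0 with hm
  have hmpos : 0 < m := FR_pos hinc y0 D.P.zero_mem
  have hch : 1 < Real.cosh ε := Real.one_lt_cosh.mpr hε.ne'
  have hsh : 0 < Real.sinh ε := Real.sinh_pos_iff.mpr hε
  set δ := (Real.cosh ε - 1) / 2 with hδ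
  have hδpos : 0 < δ := by rw [hδ]; linarith
  -- `κ` with `sinh ε - κ (1 + cosh ε) = sinh ε (1 + δ) / cosh ε`
  set κ := Real.sinh ε * (1 - (1 + δ) / Real.cosh ε) / (1 + Real.cosh ε) with hκ
  have hch0 : 0 < Real.cosh ε := by linarith
  have hfrac : (1 + δ) / Real.cosh ε < 1 := by
    rw [div_lt_one hch0, hδ]
    linarith
  have hκpos : 0 < κ := by
    rw [hκ]
    exact div_pos (mul_pos hsh (by linarith)) (by linarith)
  have hκeq : Real.sinh ε - κ * (1 + Real.cosh ε) = Real.sinh ε * (1 + δ) / Real.cosh ε := by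
    rw [hκ, div_mul_cancel₀ _ (by linarith : (1 + Real.cosh ε) ≠ 0)]
    ring
  -- the values on the sphere
  have ev1 : ∀ᶠ y in 𝓝 y0, ∀ S ∈ {S : V →L[ℝ] V | S ∈ D.P ∧ ‖S‖ = ε},
      m * (Real.cosh ε - κ) < FR D.dev y S := by
    apply (isCompact_sphereP D.P ε).eventually_forall_of_forall_eventually
    rintro S ⟨hS, hS1⟩
    have hc := FR_continuousAt hinc y0 hS
    have h1 := FR_ge_cosh hinc hmin hS
    rw [hS1] at h1
    have h2 : m * (Real.cosh ε - κ) < FR D.dev y0 S := by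
      have : 0 < m * κ := mul_pos hmpos hκpos
      linarith
    exact hc.eventually (lt_mem_nhds h2)
  have ev2 : ∀ᶠ y in 𝓝 y0, FR D.dev y 0 < m * (1 + κ) := by
    have hc := FR_continuousAt_fst hinc y0 D.P.zero_mem
    have h2 : FR D.dev y0 0 < m * (1 + κ) := by
      have : 0 < m * κ := mul_pos hmpos hκpos
      rw [← hm]
      linarith
    exact hc.eventually (gt_mem_nhds h2)
  filter_upwards [ev1, ev2] with y hy1 hy2
  have hF0 : 0 < FR D.dev y 0 := FR_pos hinc y D.P.zero_mem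
  -- large `S` have large `FR`
  have hbig : ∀ S ∈ D.P, ε ≤ ‖S‖ → m * (1 + δ) ≤ FR D.dev y S := by
    intro S hS hSε
    have hT : 0 < ‖S‖ := lt_of_lt_of_le hε hSε
    obtain ⟨d1, d2, d3⟩ := dir_facts hS hT
    have hcv := FR_conv hinc y d1 d2 hε.le hSε
    rw [d3] at hcv
    have h1 := hy1 (ε • (‖S‖⁻¹ • S)) ⟨D.P.smul_mem _ d1, by
      rw [norm_smul, d2, mul_one, Real.norm_of_nonneg hε.le]⟩
    set T := ‖S‖ with hTdef
    have hsT : 0 < Real.sinh T := Real.sinh_pos_iff.mpr hT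
    have hsTε : 0 ≤ Real.sinh (T - ε) := Real.sinh_nonneg_iff.mpr (by linarith)
    have a1 : Real.sinh T * (m * (Real.cosh ε - κ)) ≤
        Real.sinh T * FR D.dev y (ε • (T⁻¹ • S)) := mul_le_mul_of_nonneg_left h1.le hsT.le
    have a2 : Real.sinh (T - ε) * FR D.dev y 0 ≤ Real.sinh (T - ε) * (m * (1 + κ)) :=
      mul_le_mul_of_nonneg_left hy2.le hsTε
    have a3 : Real.sinh T * (m * (Real.cosh ε - κ)) - Real.sinh (T - ε) * (m * (1 + κ)) ≤
        Real.sinh ε * FR D.dev y S := by linarith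
    have a4 : Real.sinh T * (m * (Real.cosh ε - κ)) - Real.sinh (T - ε) * (m * (1 + κ)) =
        m * ((1 + κ) * Real.cosh T * Real.sinh ε - κ * Real.sinh T * (1 + Real.cosh ε)) := by
      rw [Real.sinh_sub]
      ring
    have a5 : Real.sinh T ≤ Real.cosh T := (Real.sinh_lt_cosh T).le
    have a6 : Real.cosh ε ≤ Real.cosh T := by
      rw [Real.cosh_le_cosh, abs_of_pos hε, abs_of_pos hT]
      exact hSε
    have hchT : 0 < Real.cosh T := Real.cosh_pos T
    have a7 : Real.cosh T * (Real.sinh ε - κ * (1 + Real.cosh ε)) ≤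
        (1 + κ) * Real.cosh T * Real.sinh ε - κ * Real.sinh T * (1 + Real.cosh ε) := by
      have b1 : κ * Real.sinh T * (1 + Real.cosh ε) ≤ κ * Real.cosh T * (1 + Real.cosh ε) :=
        mul_le_mul_of_nonneg_right (mul_le_mul_of_nonneg_left a5 hκpos.le) (by linarith)
      have b2 : 0 ≤ κ * Real.cosh T * Real.sinh ε :=
        mul_nonneg (mul_nonneg hκpos.le hchT.le) hsh.le
      nlinarith
    have a8 : Real.sinh ε * (1 + δ) ≤ Real.cosh T * (Real.sinh ε - κ * (1 + Real.cosh ε)) := by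
      rw [hκeq]
      have : Real.cosh T * (Real.sinh ε * (1 + δ) / Real.cosh ε) =
          (Real.sinh ε * (1 + δ)) * (Real.cosh T / Real.cosh ε) := by ring
      rw [this]
      have h3 : 1 ≤ Real.cosh T / Real.cosh ε := by
        rw [le_div_iff₀ hch0, one_mul]
        exact a6
      have h4 : 0 ≤ Real.sinh ε * (1 + δ) := mul_nonneg hsh.le (by linarith)
      nlinarith
    have a9 : m * (Real.sinh ε * (1 + δ)) ≤ Real.sinh ε * FR D.dev y S := by
      refine le_trans ?_ a3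
      rw [a4]
      exact mul_le_mul_of_nonneg_left (a8.trans a7) hmpos.le
    have a10 : Real.sinh ε * (m * (1 + δ)) ≤ Real.sinh ε * FR D.dev y S := by linarith
    exact le_of_mul_le_mul_left a10 hsh
  -- the minimum on the compact ball
  have hne : ({S : V →L[ℝ] V | S ∈ D.P ∧ ‖S‖ ≤ ε} : Set (V →L[ℝ] V)).Nonempty :=
    ⟨0, D.P.zero_mem, by simpa using hε.le⟩
  obtain ⟨S0, hS0, hmin0⟩ := (isCompact_ballP D.P ε).exists_isMinOn hne
    (f := fun S => FR D.dev y S)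
    (fun S hS => (FR_continuousAt_snd hinc y hS.1).continuousWithinAt)
  refine ⟨S0, hS0.1, hS0.2, ?_⟩
  apply le_of_forall_pos_lt_add
  intro e he
  obtain ⟨S, hS, hlt⟩ := hmax y (min e (m * δ)) (lt_min he (mul_pos hmpos hδpos))
  have h1 : FR D.dev y S < m + e := lt_of_lt_of_le hlt (by linarith [min_le_left e (m * δ)])
  have h2 : FR D.dev y S < m * (1 + δ) :=
    lt_of_lt_of_le hlt (by linarith [min_le_right e (m * δ)])
  have h3 : ‖S‖ ≤ ε := by
    by_contra hgt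
    exact absurd h2 (not_lt.mpr (hbig S hS (not_le.mp hgt).le))
  exact lt_of_le_of_lt (hmin0 ⟨hS, h3⟩) h1

end Pool.Agent.Helper2.RG
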