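import Pool.Agent.Helper2.RO.AlgC
import Pool.Agent.Helper2.RO.Rad

/-!
# Local homeomorphisms to a Euclidean space with a field of norms of rank one type

`Geom V Y` is the abstract data used for one leaf: a local homeomorphism `dev : Y → V`, a space `P`
as in `IsCartan`, and for every point `y` an operator `op y ∈ P` such that the ellipsoid
`‖exp(op y)(x - dev y)‖ < r0` lies in the star domain of `y`, and such that the norms of the points
of the half ellipsoid are comparable with a uniform constant.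
-/

set_option autoImplicit false
set_option linter.unusedSectionVars false

open Set Filter Topology

namespace Pool.Agent.Helper2.RG

open Pool.Agent.Helper2.MK Pool.Agent.Helper50.HL Pool.Agent.Helper2.RO

/-- See the module documentation. -/
structure Geom (V Y : Type*) [NormedAddCommGroup V] [InnerProductSpace ℝ V]
    [TopologicalSpace Y] where
  /-- the developing map -/
  dev : Y → V
  dev_local : IsLocalHomeomorph dev
  /-- the Cartan part -/
  P : Submodule ℝ (V →L[ℝ] V)
  cartan : IsCartan P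
  /-- the operator of the norm at `y` -/
  op : Y → (V →L[ℝ] V)
  op_mem : ∀ y, op y ∈ P
  /-- the radius -/
  r0 : ℝ
  hr0 : 0 < r0
  /-- the comparison constant -/
  A : ℝ
  hA : 1 ≤ A
  ball : ∀ y x, ‖ex (op y) (x - dev y)‖ < r0 → x ∈ dom dev y
  hop : ∀ y x, ‖ex (op y) (x - dev y)‖ ≤ r0 / 2 → ∀ v,
    ‖ex (op (sec dev y x)) v‖ ≤ A * ‖ex (op y) v‖ ∧ ‖ex (op y) v‖ ≤ A * ‖ex (op (sec dev y x)) v‖

variable {V Y : Type*} [NormedAddCommGroup V] [InnerProductSpace ℝ V] [FiniteDimensional ℝ V]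
    [TopologicalSpace Y] [T2Space Y]

/-- The size of the norms is bounded on compact sets. -/
theorem Geom.bounded (D : Geom V Y) {Q : Set Y} (hQ : IsCompact Q) :
    ∃ B : ℝ, ∀ z ∈ Q, Real.exp ‖D.op z‖ ≤ B := by
  have hloc : ∀ z ∈ Q, ∃ U ∈ 𝓝 z, ∃ B : ℝ, ∀ z' ∈ U, Real.exp ‖D.op z'‖ ≤ B := by
    intro z _
    have h1 : ∀ᶠ z' in 𝓝 z, ‖ex (D.op z) (D.dev z' - D.dev z)‖ < D.r0 / 2 := by
      have hc : Continuous fun z' => ‖ex (D.op z) (D.dev z' - D.dev z)‖ :=
        ((ex (D.op z)).continuous.comp (D.dev_local.continuous.sub continuous_const)).norm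
      refine hc.continuousAt.eventually (gt_mem_nhds ?_)
      show ‖ex (D.op z) (D.dev z - D.dev z)‖ < D.r0 / 2
      rw [sub_self, map_zero, norm_zero]
      exact half_pos D.hr0
    refine ⟨_, (near D.dev_local z).and h1, D.A * Real.exp ‖D.op z‖, ?_⟩
    rintro z' ⟨⟨-, h2, -, -⟩, h3⟩
    have h4 := D.hop z (D.dev z') h3.le
    rw [h2] at h4
    exact exp_norm_le D.cartan (D.op_mem z') (D.op_mem z) D.hA (fun x => (h4 x).2)
      (fun x => (h4 x).1)
  choose! U hU B hB using hloc
  obtain ⟨t, ht, hQt⟩ := hQ.elim_nhds_subcover U hU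
  obtain ⟨M, hM⟩ := (t.finite_toSet.image B).bddAbove
  refine ⟨M, fun z hz => ?_⟩
  obtain ⟨i, hi, hzi⟩ := mem_iUnion₂.1 (hQt hz)
  exact (hB i (ht i hi) z hzi).trans (hM ⟨i, hi, rfl⟩)

end Pool.Agent.Helper2.RG
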