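import Pool.Agent.Helper2.RG.Geom
import Pool.Agent.Helper50.HL.Scalar

/-! Module LE: affine subspaces `b + ker (top η)` at visible boundary points. -/

set_option autoImplicit false
set_option linter.unusedSectionVars false

open Set Filter Topology

namespace Pool.Agent.Helper2.RG

open Pool.Agent.Helper2.MK Pool.Agent.Helper50.HL Pool.Agent.Helper2.RO

/-- The hop principle: `δ` is the hop size, bounded below on `[s', s]`. -/
theorem hop_principle {s' s d : ℝ} (δ : ℝ → ℝ) (hd : 0 < d)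
    (hδ : ∀ t, s' ≤ t → t ≤ s → d ≤ δ t) (Q : ℝ → Prop)
    (hlast : ∀ t, s' ≤ t → t ≤ s → t - s' ≤ δ t → Q t)
    (hstep : ∀ t, s' ≤ t → t ≤ s → s' ≤ t - δ t → Q (t - δ t) → Q t) (hs : s' ≤ s) : Q s := by
  have key : ∀ N : ℕ, ∀ t, s' ≤ t → t ≤ s → t - s' ≤ N * d → Q t := by
    intro N
    induction N with
    | zero =>
      intro t h1 h2 h3
      have := hδ t h1 h2
      refine hlast t h1 h2 ?_
      simp only [Nat.cast_zero, zero_mul] at h3
      linarith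
    | succ N ih =>
      intro t h1 h2 h3
      by_cases h : t - s' ≤ δ t
      · exact hlast t h1 h2 h
      · push Not at h
        have h4 := hδ t h1 h2
        refine hstep t h1 h2 (by linarith) (ih _ (by linarith) (by linarith) ?_)
        push_cast at h3
        nlinarith
  obtain ⟨N, hN⟩ := exists_nat_ge ((s - s') / d)
  exact key N s hs le_rfl (by rwa [div_le_iff₀ hd] at hN)

variable {V Y : Type*} [NormedAddCommGroup V] [InnerProductSpace ℝ V]
    [TopologicalSpace Y] {D : Geom V Y}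

/-- A visible boundary point `b` of the star domain of `y`. -/
structure Ray (D : Geom V Y) (y : Y) (b : V) : Prop where
  hb : b ∉ dom D.dev y
  hvis : ∀ s : ℝ, 0 < s → s ≤ 1 → b + s • (D.dev y - b) ∈ dom D.dev y

namespace Ray

variable {y : Y} {b : V} (R : Ray D y b)

/-- point of the ray -/
noncomputable def x (_ : Ray D y b) (s : ℝ) : V := b + s • (D.dev y - b)

/-- lifted point of the ray -/
noncomputable def pt (s : ℝ) : Y := sec D.dev y (R.x s)

/-- the operator at parameter `s` -/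
noncomputable def S (s : ℝ) : V →L[ℝ] V := D.op (R.pt s)

/-- the size of the norm -/
noncomputable def Λ (s : ℝ) : ℝ := Real.exp ‖R.S s‖

/-- the local norm -/
noncomputable def nm (s : ℝ) (v : V) : ℝ := ‖ex (R.S s) v‖

theorem x_def (s : ℝ) : R.x s = b + s • (D.dev y - b) := rfl

theorem x_sub (s t : ℝ) : R.x s - R.x t = (s - t) • (D.dev y - b) := by
  simp only [x_def, sub_smul]; abel

theorem S_mem (s : ℝ) : R.S s ∈ D.P := D.op_mem _

theorem nm_eq (s : ℝ) (v : V) : R.nm s v = ‖ex (R.S s) v‖ := rfl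

theorem nm_add_le (s : ℝ) (v w : V) : R.nm s (v + w) ≤ R.nm s v + R.nm s w := by
  unfold nm; rw [map_add]; exact norm_add_le _ _

theorem nm_smul (s a : ℝ) (v : V) : R.nm s (a • v) = |a| * R.nm s v := by
  unfold nm
  rw [map_smul, norm_smul, Real.norm_eq_abs]

theorem nm_neg (s : ℝ) (v : V) : R.nm s (-v) = R.nm s v := by
  unfold nm; rw [map_neg, norm_neg]

theorem nm_nonneg (s : ℝ) (v : V) : 0 ≤ R.nm s v := norm_nonneg _

theorem nm_zero (s : ℝ) : R.nm s 0 = 0 := by simp [nm]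

theorem one_le_Λ (s : ℝ) : 1 ≤ R.Λ s := Real.one_le_exp (norm_nonneg _)

section
variable [FiniteDimensional ℝ V]

theorem nm_continuous (s : ℝ) : Continuous (R.nm s) := by
  have : R.nm s = fun v => ‖ex (R.S s) v‖ := funext (R.nm_eq s)
  rw [this]
  exact (ex (R.S s)).continuous.norm

/-- the open ellipsoid -/
def E (s : ℝ) : Set V := {p | R.nm s (p - R.x s) < D.r0}

theorem E_open (s : ℝ) : IsOpen (R.E s) :=
  isOpen_lt ((R.nm_continuous s).comp (continuous_id.sub continuous_const)) continuous_const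

theorem E_convex (s : ℝ) : Convex ℝ (R.E s) := by
  intro p hp p' hp' a c ha hc hac
  have h1 : a • p + c • p' - R.x s = a • (p - R.x s) + c • (p' - R.x s) := by
    have : R.x s = (a + c) • R.x s := by rw [hac, one_smul]
    rw [smul_sub, smul_sub]
    nth_rewrite 1 [this]
    rw [add_smul]; abel
  show R.nm s _ < D.r0
  rw [h1]
  have h2 := R.nm_add_le s (a • (p - R.x s)) (c • (p' - R.x s))
  rw [R.nm_smul, R.nm_smul, abs_of_nonneg ha, abs_of_nonneg hc] at h2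
  have h3 : R.nm s (p - R.x s) < D.r0 := hp
  have h4 : R.nm s (p' - R.x s) < D.r0 := hp'
  rcases ha.eq_or_lt with rfl | ha'
  · have : c = 1 := by linarith
    subst this
    simp only [zero_mul, one_mul, zero_add] at h2
    exact h2.trans_lt h4
  · have h5 : a * R.nm s (p - R.x s) < a * D.r0 := (mul_lt_mul_iff_right₀ ha').mpr h3
    have h6 : c * R.nm s (p' - R.x s) ≤ c * D.r0 := mul_le_mul_of_nonneg_left h4.le hc
    have h7 : a * D.r0 + c * D.r0 = D.r0 := by rw [← add_mul, hac, one_mul]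
    linarith

theorem x_mem_E (s : ℝ) : R.x s ∈ R.E s := by
  show R.nm s _ < D.r0
  rw [sub_self, R.nm_zero]
  exact D.hr0

include R in
theorem v_ne : D.dev y - b ≠ 0 := by
  intro h
  rw [sub_eq_zero] at h
  exact R.hb (h ▸ mem_dom_self D.dev_local y)

theorem x_mem {s : ℝ} (h0 : 0 < s) (h1 : s ≤ 1) : R.x s ∈ dom D.dev y := R.hvis s h0 h1

variable [T2Space Y]

theorem dev_gz {s : ℝ} (h0 : 0 < s) (h1 : s ≤ 1) : D.dev (R.pt s) = R.x s :=
  (isSec_sec D.dev_local y).2 _ (R.hvis s h0 h1)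

theorem E_sub {s : ℝ} (h0 : 0 < s) (h1 : s ≤ 1) : R.E s ⊆ dom D.dev (R.pt s) := by
  intro p hp
  refine D.ball (R.pt s) p ?_
  rw [R.dev_gz h0 h1]
  exact hp

theorem sec_x (s : ℝ) : sec D.dev y (R.x s) = R.pt s := rfl

/-- C1 -/
theorem r0_le {s : ℝ} (h0 : 0 < s) (h1 : s ≤ 1) : D.r0 ≤ s * R.nm s (D.dev y - b) := by
  by_contra h
  push Not at h
  refine R.hb (mem_dom_of_ray D.dev_local (R.x_mem h0 h1) ?_ (R.E_open s) (R.E_convex s)
    (R.x_mem_E s) ?_ ?_)
  · rw [segment_symm, segment_eq_image']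
    exact ⟨s, ⟨h0.le, h1⟩, rfl⟩
  · rw [R.sec_x]
    exact R.E_sub h0 h1
  · show R.nm s _ < D.r0
    have : b - R.x s = -(s • (D.dev y - b)) := by rw [x_def]; abel
    rw [this, R.nm_neg, R.nm_smul, abs_of_pos h0]
    exact h

theorem nm_le (s : ℝ) (v : V) : R.nm s v ≤ R.Λ s * ‖v‖ := by
  rw [R.nm_eq]
  exact norm_ex_le D.cartan (R.S_mem s) v

/-- C1: lower bound -/
theorem Λ_lower {s : ℝ} (h0 : 0 < s) (h1 : s ≤ 1) :
    D.r0 / ‖D.dev y - b‖ / R.Λ s ≤ s := by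
  have hv : 0 < ‖D.dev y - b‖ := norm_pos_iff.mpr R.v_ne
  have hP : 0 < R.Λ s := lt_of_lt_of_le one_pos (R.one_le_Λ s)
  have h2 := R.r0_le h0 h1
  have h3 := mul_le_mul_of_nonneg_left (R.nm_le s (D.dev y - b)) h0.le
  rw [div_div, div_le_iff₀ (by positivity)]
  nlinarith

/-- C2 -/
theorem sec_near {t t' : ℝ} (h0 : 0 < t') (h1 : t' ≤ t) (h2 : t ≤ 1)
    (h3 : (t - t') * R.nm t (D.dev y - b) < D.r0) :
    sec D.dev (R.pt t) (R.x t') = R.pt t' := by
  have ht : 0 < t := h0.trans_le h1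
  have hxt' : R.x t' ∈ R.E t := by
    show R.nm t _ < D.r0
    rw [R.x_sub, R.nm_smul, abs_sub_comm, abs_of_nonneg (by linarith)]
    exact h3
  rw [← R.sec_x t, ← R.sec_x t']
  apply sec_sec_of_segment D.dev_local (R.x_mem ht h2)
  · intro p hp
    rw [segment_symm, segment_eq_image'] at hp
    obtain ⟨a, ⟨ha, ha'⟩, rfl⟩ := hp
    have : R.x t' + a • (R.x t - R.x t') = R.x (t' + a * (t - t')) := by
      rw [R.x_sub, x_def, x_def, add_smul, mul_smul]; abel
    show R.x t' + a • (R.x t - R.x t') ∈ _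
    rw [this]
    exact R.x_mem (by nlinarith) (by nlinarith)
  · rw [R.sec_x]
    exact ((R.E_convex t).segment_subset (R.x_mem_E t) hxt').trans (R.E_sub ht h2)

theorem hop' {t t' : ℝ} (h0 : 0 < t') (h1 : t' ≤ t) (h2 : t ≤ 1)
    (h3 : (t - t') * R.nm t (D.dev y - b) ≤ D.r0 / 2) (v : V) :
    R.nm t' v ≤ D.A * R.nm t v ∧ R.nm t v ≤ D.A * R.nm t' v := by
  have hr := D.hr0
  have h5 := D.hop (R.pt t) (R.x t') (by
    rw [R.dev_gz (h0.trans_le h1) h2]
    show R.nm t _ ≤ _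
    rw [R.x_sub, R.nm_smul, abs_sub_comm, abs_of_nonneg (by linarith)]
    exact h3) v
  rw [R.sec_near h0 h1 h2 (by linarith)] at h5
  exact h5

/-- `Λ` is bounded on compact parameter intervals (properness) -/
theorem bounded {s' : ℝ} (h0 : 0 < s') : ∃ B : ℝ, ∀ t, s' ≤ t → t ≤ 1 → R.Λ t ≤ B := by
  have hQ : IsCompact ((fun t => sec D.dev y (R.x t)) '' Icc s' 1) := by
    refine isCompact_Icc.image_of_continuousOn ?_
    have h1 : ContinuousOn R.x (Icc s' 1) := by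
      have : Continuous R.x := by
        show Continuous fun s : ℝ => b + s • (D.dev y - b)
        fun_prop
      exact this.continuousOn
    exact (isSec_sec D.dev_local y).1.comp h1 fun t ht => R.x_mem (h0.trans_le ht.1) ht.2
  obtain ⟨B, hB⟩ := D.bounded hQ
  exact ⟨B, fun t h1 h2 => hB _ ⟨t, ⟨h1, h2⟩, rfl⟩⟩

/-- direction estimate for one hop -/
theorem ap_hop {t t' : ℝ} (h0 : 0 < t') (h1 : t' ≤ t) (h2 : t ≤ 1)
    (h3 : (t - t') * R.nm t (D.dev y - b) ≤ D.r0 / 2) (x : V) :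
    ‖top (R.S t) x - top (R.S t') x‖ ≤ 2 * D.A ^ 2 / R.Λ t * ‖x‖ := by
  have hA := D.hA
  have h4 := R.hop' h0 h1 h2 h3
  have h4a : ∀ v, ‖ex (R.S t') v‖ ≤ D.A * ‖ex (R.S t) v‖ := fun v => by
    rw [← R.nm_eq, ← R.nm_eq]; exact (h4 v).1
  have h4b : ∀ v, ‖ex (R.S t) v‖ ≤ D.A * ‖ex (R.S t') v‖ := fun v => by
    rw [← R.nm_eq, ← R.nm_eq]; exact (h4 v).2
  have h5 := top_sub_le D.cartan (R.S_mem t) (R.S_mem t') h4a h4b x
  have h6 := exp_norm_le D.cartan (R.S_mem t) (R.S_mem t') hA h4a h4b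
  refine h5.trans (mul_le_mul_of_nonneg_right ?_ (norm_nonneg _))
  have hP : 0 < Real.exp ‖R.S t‖ := Real.exp_pos _
  have hP' : 0 < Real.exp ‖R.S t'‖ := Real.exp_pos _
  show _ ≤ 2 * D.A ^ 2 / Real.exp ‖R.S t‖
  rw [Real.exp_neg, Real.exp_neg]
  have h7 : (Real.exp ‖R.S t'‖)⁻¹ ≤ D.A * (Real.exp ‖R.S t‖)⁻¹ := by
    rw [inv_le_iff_one_le_mul₀ hP', ← div_eq_mul_inv, div_mul_eq_mul_div, le_div_iff₀ hP, one_mul]
    exact h6
  have h8 : 0 < (Real.exp ‖R.S t‖)⁻¹ := inv_pos.mpr hP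
  calc D.A * (Real.exp ‖R.S t‖)⁻¹ + D.A * (Real.exp ‖R.S t'‖)⁻¹
      ≤ D.A * (Real.exp ‖R.S t‖)⁻¹ + D.A * (D.A * (Real.exp ‖R.S t‖)⁻¹) := by gcongr
    _ ≤ D.A * (D.A * (Real.exp ‖R.S t‖)⁻¹) + D.A * (D.A * (Real.exp ‖R.S t‖)⁻¹) := by
        gcongr
        nlinarith
    _ = _ := by ring

/-- hop size constant -/
noncomputable def c' (_ : Ray D y b) : ℝ := D.r0 / (4 * D.A * ‖D.dev y - b‖)

theorem c'_pos : 0 < R.c' := by
  have hv : 0 < ‖D.dev y - b‖ := norm_pos_iff.mpr R.v_ne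
  have hA := D.hA
  have hr := D.hr0
  unfold c'
  positivity

theorem hop_ok {t t' : ℝ} (h1 : t' ≤ t) (h : t - t' ≤ R.c' / R.Λ t) :
    (t - t') * R.nm t (D.dev y - b) ≤ D.r0 / (4 * D.A) := by
  have hv : 0 < ‖D.dev y - b‖ := norm_pos_iff.mpr R.v_ne
  have hA := D.hA
  have hr := D.hr0
  have hP : 0 < R.Λ t := lt_of_lt_of_le one_pos (R.one_le_Λ t)
  have h2 := R.nm_le t (D.dev y - b)
  calc (t - t') * R.nm t (D.dev y - b)
      ≤ (R.c' / R.Λ t) * (R.Λ t * ‖D.dev y - b‖) :=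
        mul_le_mul h h2 (R.nm_nonneg _ _) (div_nonneg R.c'_pos.le hP.le)
    _ = D.r0 / (4 * D.A) := by
        unfold c'; field_simp

/-- C4: direction estimate -/
theorem dir : ∃ C : ℝ, 0 < C ∧ ∀ s' s : ℝ, 0 < s' → s' ≤ s → s ≤ 1 → ∀ x : V,
    ‖top (R.S s) x - top (R.S s') x‖ ≤ C * s * ‖x‖ := by
  have hv : 0 < ‖D.dev y - b‖ := norm_pos_iff.mpr R.v_ne
  have hA := D.hA
  have hr := D.hr0
  have hc' := R.c'_pos
  set c : ℝ := D.r0 / ‖D.dev y - b‖ with hc
  have hcpos : 0 < c := by positivity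
  refine ⟨2 * D.A ^ 2 / R.c' + 2 * D.A ^ 2 / c, by positivity, ?_⟩
  intro s' s h0 h1 h2 x
  obtain ⟨B, hB⟩ := R.bounded h0
  have hB1 : 1 ≤ B := (R.one_le_Λ s).trans (hB s h1 h2)
  have hr4 : D.r0 / (4 * D.A) ≤ D.r0 / 2 := by
    apply div_le_div_of_nonneg_left hr.le (by norm_num)
    linarith
  have key := hop_principle (s' := s') (s := s) (d := R.c' / B) (fun t => R.c' / R.Λ t)
    (by positivity) (fun t ht ht' => by
      have := R.one_le_Λ t
      exact div_le_div_of_nonneg_left hc'.le (by linarith) (hB t ht (ht'.trans h2)))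
    (fun t => ‖top (R.S t) x - top (R.S s') x‖ ≤
      2 * D.A ^ 2 / R.c' * (t - s') * ‖x‖ + 2 * D.A ^ 2 / c * t * ‖x‖) ?_ ?_ h1
  · refine key.trans ?_
    have : 2 * D.A ^ 2 / R.c' * (s - s') * ‖x‖ ≤ 2 * D.A ^ 2 / R.c' * s * ‖x‖ := by
      gcongr; linarith
    linarith [this]
  · intro t ht ht' hδ
    have h3 := R.hop_ok ht hδ
    have h4 := R.ap_hop h0 ht (ht'.trans h2) (h3.trans hr4) x
    have hP : 0 < R.Λ t := lt_of_lt_of_le one_pos (R.one_le_Λ t)
    have h5 := R.Λ_lower (h0.trans_le ht) (ht'.trans h2)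
    have h6 : 2 * D.A ^ 2 / R.Λ t ≤ 2 * D.A ^ 2 / c * t := by
      have : 2 * D.A ^ 2 / R.Λ t = 2 * D.A ^ 2 / c * (c / R.Λ t) := by field_simp
      rw [this]
      gcongr
    have h7 : 0 ≤ 2 * D.A ^ 2 / R.c' * (t - s') * ‖x‖ := by
      have : 0 ≤ t - s' := by linarith
      positivity
    have h8 := mul_le_mul_of_nonneg_right h6 (norm_nonneg x)
    linarith
  · intro t ht ht' hδ ih
    have hP : 0 < R.Λ t := lt_of_lt_of_le one_pos (R.one_le_Λ t)
    have hδpos : 0 < R.c' / R.Λ t := by positivity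
    have h3 := R.hop_ok (t := t) (t' := t - R.c' / R.Λ t) (by linarith) (by linarith)
    have h4 := R.ap_hop (t := t) (t' := t - R.c' / R.Λ t) (h0.trans_le hδ) (by linarith)
      (ht'.trans h2) (h3.trans hr4) x
    have h5 : 2 * D.A ^ 2 / R.Λ t = 2 * D.A ^ 2 / R.c' * (R.c' / R.Λ t) := by field_simp
    have h6 : ‖top (R.S t) x - top (R.S s') x‖ ≤
        ‖top (R.S t) x - top (R.S (t - R.c' / R.Λ t)) x‖ +
        ‖top (R.S (t - R.c' / R.Λ t)) x - top (R.S s') x‖ := norm_sub_le_norm_sub_add_norm_sub _ _ _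
    have h7 : 2 * D.A ^ 2 / c * (t - R.c' / R.Λ t) * ‖x‖ ≤ 2 * D.A ^ 2 / c * t * ‖x‖ := by
      gcongr; linarith
    rw [h5] at h4
    have h8 : 2 * D.A ^ 2 / R.c' * (t - s') * ‖x‖ = 2 * D.A ^ 2 / R.c' * (R.c' / R.Λ t) * ‖x‖ +
      2 * D.A ^ 2 / R.c' * (t - R.c' / R.Λ t - s') * ‖x‖ := by ring
    rw [h8]
    linarith

/-- C5: the limit direction -/
theorem limit : ∃ η ∈ D.P, ‖η‖ = 1 ∧ ∃ C : ℝ, 0 < C ∧
    ∀ s, 0 < s → s ≤ 1 → ∀ x, ‖top (R.S s) x - top η x‖ ≤ C * s * ‖x‖ := by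
  have hv : 0 < ‖D.dev y - b‖ := norm_pos_iff.mpr R.v_ne
  have hr := D.hr0
  obtain ⟨C, hC, hdir⟩ := R.dir
  -- an ultrafilter tending to 0 from the right
  obtain ⟨U, hU⟩ := Ultrafilter.exists_le (𝓝[>] (0 : ℝ))
  have hpos : ∀ᶠ s in (U : Filter ℝ), 0 < s := hU self_mem_nhdsWithin
  have h0 : Tendsto (fun s : ℝ => s) U (𝓝 0) :=
    (tendsto_id.mono_left hU).trans nhdsWithin_le_nhds |>.trans le_rfl
  have hsm : ∀ {s : ℝ}, 0 < s → ∀ᶠ s' in (U : Filter ℝ), s' ≤ s := fun hs =>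
    h0.eventually (ge_mem_nhds hs)
  set c : ℝ := D.r0 / ‖D.dev y - b‖ with hc
  have hcpos : 0 < c := by positivity
  -- the operators are nonzero for small parameters
  have hne : ∀ᶠ s in (U : Filter ℝ), R.S s ≠ 0 := by
    filter_upwards [hpos, hsm (lt_min one_pos (half_pos hcpos))] with s hs hs1 hS
    have h1 := R.Λ_lower hs (hs1.trans (min_le_left _ _))
    have h2 : R.Λ s = 1 := by
      show Real.exp ‖R.S s‖ = 1
      rw [hS, norm_zero, Real.exp_zero]
    rw [h2, div_one, ← hc] at h1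
    have := hs1.trans (min_le_right _ _)
    linarith
  -- unit operators
  have := FiniteDimensional.proper ℝ (V →L[ℝ] V)
  obtain ⟨η, hη, hlim⟩ := (isCompact_sphere (0 : V →L[ℝ] V) 1).ultrafilter_le_nhds
    (U.map fun s => ‖R.S s‖⁻¹ • R.S s) (by
      rw [le_principal_iff]
      refine Ultrafilter.mem_map.mpr (hne.mono fun s hs => ?_)
      show ‖R.S s‖⁻¹ • R.S s ∈ Metric.sphere (0 : V →L[ℝ] V) 1
      have hs' := norm_ne_zero_iff.mpr hs
      simp only [mem_sphere_iff_norm, sub_zero, norm_smul, norm_inv, norm_norm]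
      exact inv_mul_cancel₀ hs')
  have hlim' : Tendsto (fun s => ‖R.S s‖⁻¹ • R.S s) U (𝓝 η) := hlim
  have hη1 : ‖η‖ = 1 := by simpa using hη
  have hη0 : η ≠ 0 := by
    rw [← norm_ne_zero_iff, hη1]
    exact one_ne_zero
  have hηP : η ∈ D.P := by
    have hcl : IsClosed (D.P : Set (V →L[ℝ] V)) := Submodule.closed_of_finiteDimensional D.P
    exact hcl.mem_of_tendsto hlim' (Eventually.of_forall fun s => D.P.smul_mem _ (R.S_mem s))
  have htop : Tendsto (fun s => top (R.S s)) U (𝓝 (top η)) := by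
    have h1 : Tendsto (fun s => top (‖R.S s‖⁻¹ • R.S s)) U (𝓝 (top η)) :=
      (top_continuousAt hη0).tendsto.comp hlim'
    refine h1.congr' (hne.mono fun s hs => ?_)
    exact top_smul (inv_pos.mpr (norm_pos_iff.mpr hs)) _
  refine ⟨η, hηP, hη1, C, hC, fun s hs hs1 x => ?_⟩
  have h1 : Tendsto (fun s' => ‖top (R.S s) x - top (R.S s') x‖) U
      (𝓝 ‖top (R.S s) x - top η x‖) := by
    have h2 : Tendsto (fun s' => top (R.S s') x) U (𝓝 (top η x)) :=
      ((ContinuousLinearMap.apply ℝ V x).continuous.tendsto _).comp htop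
    exact (tendsto_const_nhds.sub h2).norm
  refine le_of_tendsto h1 ?_
  filter_upwards [hpos, hsm hs] with s' hs' hs'1
  exact hdir s' s hs' hs'1 hs1 x

theorem sec_gz {s : ℝ} (h0 : 0 < s) (h1 : s ≤ 1) :
    sec D.dev (R.pt s) (R.x s) = R.pt s := by
  rw [← R.dev_gz h0 h1]
  exact sec_self D.dev_local _

/-- C6, C7 -/
theorem final {η : V →L[ℝ] V} {C : ℝ} (hC : 0 < C)
    (hlim : ∀ s, 0 < s → s ≤ 1 → ∀ x, ‖top (R.S s) x - top η x‖ ≤ C * s * ‖x‖)
    {ρ : ℝ} (hρ : 0 < ρ) :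
    ∃ ε > 0, ∀ C' : Set V, IsOpen C' → Convex ℝ C' → C' ⊆ dom D.dev y →
      Metric.ball (D.dev y) ρ ⊆ C' → ∀ w, top η w = 0 → ‖w‖ < ε → b + w ∉ C' := by
  have hv : 0 < ‖D.dev y - b‖ := norm_pos_iff.mpr R.v_ne
  have hr := D.hr0
  have hA := D.hA
  have hc' := R.c'_pos
  have hP0 : ∀ s, 0 < R.Λ s := fun s => lt_of_lt_of_le one_pos (R.one_le_Λ s)
  refine ⟨min (D.r0 / (8 * D.A)) (ρ / (1 + 2 * C)), by positivity, ?_⟩
  intro C' hC'o hC'c hC'd hball w hw hwε hq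
  rw [lt_min_iff] at hwε
  obtain ⟨hw1, hw2⟩ := hwε
  have hw1' : 2 * ‖w‖ ≤ D.r0 / (4 * D.A) := by
    have : D.r0 / (4 * D.A) = 2 * (D.r0 / (8 * D.A)) := by field_simp; norm_num
    rw [this]; linarith
  have hw2' : (1 + 2 * C) * ‖w‖ < ρ := by
    rw [lt_div_iff₀ (by positivity)] at hw2; linarith
  have hr4 : D.r0 / (4 * D.A) ≤ D.r0 / 4 := by
    apply div_le_div_of_nonneg_left hr.le (by norm_num)
    linarith
  have hA4 : D.A * (D.r0 / (4 * D.A)) = D.r0 / 4 := by field_simp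
  set k : ℝ → V := fun s => top (R.S s) w with hk
  set u : ℝ → V := fun s => w - k s with hu
  set c : ℝ → V := fun s => R.x s + u s with hcdef
  have hk1 : ∀ s, 0 < s → s ≤ 1 → ‖k s‖ ≤ C * s * ‖w‖ := by
    intro s h0 h1
    have h2 := hlim s h0 h1 w
    rwa [hw, sub_zero] at h2
  have hu1 : ∀ s, ‖u s‖ ≤ 2 * ‖w‖ ∧ R.nm s (u s) ≤ 2 * ‖w‖ := by
    intro s
    have h4 : ‖u s‖ ≤ 2 * ‖w‖ := by
      calc ‖u s‖ ≤ ‖w‖ + ‖k s‖ := norm_sub_le _ _
        _ ≤ ‖w‖ + ‖w‖ := by gcongr; exact norm_top_le D.cartan (R.S_mem s) w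
        _ = 2 * ‖w‖ := by ring
    refine ⟨h4, ?_⟩
    rw [R.nm_eq]
    refine (norm_ex_of_ker D.cartan (R.S_mem s) ?_).trans h4
    rw [hu]
    simp only
    rw [map_sub, hk]
    simp only
    rw [top_top D.cartan (R.S_mem s), sub_self]
  have hcx : ∀ s, c s - R.x s = u s := fun s => by rw [hcdef]; simp
  have hcE : ∀ s, c s ∈ R.E s := by
    intro s
    show R.nm s _ < D.r0
    rw [hcx]
    have := (hu1 s).2
    linarith
  have hcC : ∀ s, 0 < s → s ≤ 1 → c s ∈ C' := by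
    intro s h0 h1
    have h2 := hk1 s h0 h1
    have h3 : D.dev y + (w - (s⁻¹ : ℝ) • k s) ∈ C' := by
      apply hball
      rw [mem_ball_iff_norm, add_sub_cancel_left]
      calc ‖w - (s⁻¹ : ℝ) • k s‖ ≤ ‖w‖ + ‖(s⁻¹ : ℝ) • k s‖ := norm_sub_le _ _
        _ = ‖w‖ + s⁻¹ * ‖k s‖ := by
            rw [norm_smul, Real.norm_eq_abs, abs_of_pos (by positivity)]
        _ ≤ ‖w‖ + s⁻¹ * (C * s * ‖w‖) := by gcongr
        _ = (1 + C) * ‖w‖ := by field_simp
        _ ≤ (1 + 2 * C) * ‖w‖ := by gcongr; linarith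
        _ < ρ := hw2'
    have h4 : c s = (1 - s) • (b + w) + s • (D.dev y + (w - (s⁻¹ : ℝ) • k s)) := by
      rw [hcdef, hu]
      simp only [x_def, smul_add, smul_sub, sub_smul, one_smul]
      rw [smul_smul s s⁻¹, mul_inv_cancel₀ h0.ne', one_smul]
      abel
    rw [h4]
    exact hC'c hq h3 (by linarith) h0.le (by ring)
  have hxE : ∀ t t', 0 < t' → t' ≤ t → t ≤ 1 → t - t' ≤ R.c' / R.Λ t → R.x t' ∈ R.E t := by
    intro t t' h0 h1 h2 h3
    show R.nm t _ < D.r0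
    rw [R.x_sub, R.nm_smul, abs_sub_comm, abs_of_nonneg (by linarith)]
    have := R.hop_ok h1 h3
    linarith
  -- agreement of the sections
  have hop : ∀ t t', 0 < t' → t' ≤ t → t ≤ 1 → t - t' ≤ R.c' / R.Λ t →
      sec D.dev (R.pt t) (c t) = sec D.dev y (c t) →
      sec D.dev (R.pt t') (c t') = sec D.dev y (c t') := by
    intro t t' h0 h1 h2 h3 hag
    have ht : 0 < t := h0.trans_le h1
    have ht'1 : t' ≤ 1 := h1.trans h2
    have h4 := R.hop_ok h1 h3
    have hct' : c t ∈ R.E t' := by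
      show R.nm t' _ < D.r0
      have h5 := (R.hop' h0 h1 h2 (by linarith) (c t - R.x t')).1
      have h6 : R.nm t (c t - R.x t') ≤ D.r0 / (4 * D.A) + D.r0 / (4 * D.A) := by
        have : c t - R.x t' = u t + (R.x t - R.x t') := by rw [← hcx t]; abel
        rw [this]
        refine (R.nm_add_le t _ _).trans (add_le_add ((hu1 t).2.trans hw1') ?_)
        rw [R.x_sub, R.nm_smul, abs_of_nonneg (by linarith)]
        exact h4
      have h7 := mul_le_mul_of_nonneg_left h6 (by linarith : (0 : ℝ) ≤ D.A)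
      rw [mul_add, hA4] at h7
      linarith
    have hxt' := hxE t t' h0 h1 h2 h3
    have e1 : EqOn (sec D.dev (R.pt t)) (sec D.dev (R.pt t')) (R.E t ∩ R.E t') := by
      refine IsSec.eqOn D.dev_local ((R.E_convex t).inter (R.E_convex t')).isPreconnected
        ((isSec_sec D.dev_local _).mono (inter_subset_left.trans (R.E_sub ht h2)))
        ((isSec_sec D.dev_local _).mono (inter_subset_right.trans (R.E_sub h0 ht'1)))
        (x := R.x t') ⟨hxt', R.x_mem_E t'⟩ ?_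
      rw [R.sec_near h0 h1 h2 (by linarith), R.sec_gz h0 ht'1]
    have e2 := e1 ⟨hcE t, hct'⟩
    have e3 : EqOn (sec D.dev (R.pt t')) (sec D.dev y) (R.E t' ∩ C') := by
      refine IsSec.eqOn D.dev_local ((R.E_convex t').inter hC'c).isPreconnected
        ((isSec_sec D.dev_local _).mono (inter_subset_left.trans (R.E_sub h0 ht'1)))
        ((isSec_sec D.dev_local _).mono (inter_subset_right.trans hC'd))
        (x := c t) ⟨hct', hcC t ht h2⟩ ?_
      rw [← e2, hag]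
    exact e3 ⟨hcE t', hcC t' h0 (h1.trans h2)⟩
  have hbase : sec D.dev (R.pt 1) (c 1) = sec D.dev y (c 1) := by
    have hx1 : R.x 1 = D.dev y := by rw [x_def, one_smul]; abel
    have hxC : R.x 1 ∈ C' := by
      rw [hx1]
      exact hball (Metric.mem_ball_self hρ)
    have e3 : EqOn (sec D.dev (R.pt 1)) (sec D.dev y) (R.E 1 ∩ C') := by
      refine IsSec.eqOn D.dev_local ((R.E_convex 1).inter hC'c).isPreconnected
        ((isSec_sec D.dev_local _).mono (inter_subset_left.trans (R.E_sub one_pos le_rfl)))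
        ((isSec_sec D.dev_local _).mono (inter_subset_right.trans hC'd))
        (x := R.x 1) ⟨R.x_mem_E 1, hxC⟩ ?_
      rw [R.sec_gz one_pos le_rfl, R.sec_x]
    exact e3 ⟨hcE 1, hcC 1 one_pos le_rfl⟩
  have hagree : ∀ s, 0 < s → s ≤ 1 →
      sec D.dev (R.pt s) (c s) = sec D.dev y (c s) := by
    intro s h0 h1
    obtain ⟨B, hB⟩ := R.bounded h0
    have hB1 : 1 ≤ B := (R.one_le_Λ s).trans (hB s le_rfl h1)
    refine hop_principle (s' := s) (s := 1) (d := R.c' / B) (fun t => R.c' / R.Λ t)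
      (by positivity) (fun t ht ht' => by
        have := R.one_le_Λ t
        exact div_le_div_of_nonneg_left hc'.le (by linarith) (hB t ht ht'))
      (fun t => sec D.dev (R.pt t) (c t) = sec D.dev y (c t) →
        sec D.dev (R.pt s) (c s) = sec D.dev y (c s)) ?_ ?_ h1 hbase
    · intro t ht ht' hδ hag
      exact hop t s h0 ht ht' hδ hag
    · intro t ht ht' hδ ih hag
      have hPt := hP0 t
      have : 0 < R.c' / R.Λ t := by positivity
      exact ih (hop t _ (h0.trans_le hδ) (by linarith) ht' (by linarith) hag)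
  -- the limit
  have hfd := FiniteDimensional.proper ℝ V
  obtain ⟨κ, hκ, hκC⟩ := Metric.nhds_basis_closedBall.mem_iff.mp (hC'o.mem_nhds hq)
  have hN : IsCompact (sec D.dev y '' Metric.closedBall (b + w) κ) :=
    (isCompact_closedBall _ _).image_of_continuousOn
      ((isSec_sec D.dev_local y).1.mono (hκC.trans hC'd))
  obtain ⟨B0, hB0⟩ := D.bounded hN
  set B : ℝ := D.A * B0 with hBdef
  set c1 : ℝ := D.r0 / ‖D.dev y - b‖ with hc1
  have hc1pos : 0 < c1 := by positivity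
  set B' : ℝ := max B 1 with hB'
  have hB'pos : 0 < B' := lt_of_lt_of_le one_pos (le_max_right _ _)
  set M : ℝ := ‖D.dev y - b‖ + C * ‖w‖ with hM
  have hMpos : 0 < M := by positivity
  obtain ⟨s, hs, hs1, hs2, hs3⟩ : ∃ s : ℝ, 0 < s ∧ s ≤ 1 ∧ s * M ≤ κ ∧ s < c1 / B' := by
    refine ⟨min 1 (min (κ / M) (c1 / B' / 2)), by positivity, min_le_left _ _, ?_, ?_⟩
    · calc min 1 (min (κ / M) (c1 / B' / 2)) * M ≤ κ / M * M := by
            gcongr; exact (min_le_right _ _).trans (min_le_left _ _)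
        _ = κ := by field_simp
    · refine lt_of_le_of_lt ((min_le_right _ _).trans (min_le_right _ _)) ?_
      have : 0 < c1 / B' := by positivity
      linarith
  have hcb : c s ∈ Metric.closedBall (b + w) κ := by
    rw [mem_closedBall_iff_norm]
    have h1 : c s - (b + w) = s • (D.dev y - b) - k s := by
      rw [hcdef, hu]; simp only [x_def]; abel
    rw [h1]
    calc ‖s • (D.dev y - b) - k s‖ ≤ ‖s • (D.dev y - b)‖ + ‖k s‖ :=
          norm_sub_le _ _
      _ = s * ‖D.dev y - b‖ + ‖k s‖ := by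
          rw [norm_smul, Real.norm_eq_abs, abs_of_pos hs]
      _ ≤ s * ‖D.dev y - b‖ + C * s * ‖w‖ := by gcongr; exact hk1 s hs hs1
      _ = s * M := by rw [hM]; ring
      _ ≤ κ := hs2
  have hhop := D.hop (R.pt s) (c s) (by
    rw [R.dev_gz hs hs1]
    show R.nm s _ ≤ _
    rw [hcx]
    have := (hu1 s).2
    linarith)
  have hmem : sec D.dev (R.pt s) (c s) ∈ sec D.dev y '' Metric.closedBall (b + w) κ :=
    ⟨c s, hcb, (hagree s hs hs1).symm⟩
  have hPB : R.Λ s ≤ B' := by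
    have h1 := hB0 _ hmem
    have h2 : R.Λ s ≤ D.A * Real.exp ‖D.op (sec D.dev (R.pt s) (c s))‖ :=
      exp_norm_le D.cartan (R.S_mem s) (D.op_mem _) D.hA (fun x => (hhop x).1) (fun x => (hhop x).2)
    exact (h2.trans (mul_le_mul_of_nonneg_left h1 (by linarith))).trans (le_max_left _ _)
  have hlow := R.Λ_lower hs hs1
  have : c1 / B' ≤ c1 / R.Λ s := div_le_div_of_nonneg_left hc1pos.le (hP0 s) hPB
  linarith

end

end Ray

/-- LEMMA LE. -/
theorem le_lemma [FiniteDimensional ℝ V] [T2Space Y] (D : Geom V Y) {y : Y} {b : V}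
    (hb : b ∉ dom D.dev y)
    (hvis : ∀ s : ℝ, 0 < s → s ≤ 1 → b + s • (D.dev y - b) ∈ dom D.dev y) :
    ∃ η ∈ D.P, ‖η‖ = 1 ∧ ∀ ρ > 0, ∃ ε > 0, ∀ C : Set V, IsOpen C → Convex ℝ C →
      C ⊆ dom D.dev y → Metric.ball (D.dev y) ρ ⊆ C → ∀ w, top η w = 0 → ‖w‖ < ε →
        b + w ∉ C := by
  have R : Ray D y b := ⟨hb, hvis⟩
  obtain ⟨η, hηP, hη1, C, hC, hlim⟩ := R.limit
  exact ⟨η, hηP, hη1, fun ρ hρ => R.final hC hlim hρ⟩

end Pool.Agent.Helper2.RG
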