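import Pool.Agent.Helper2.RG.LE

/-! Module Supp: contacts of the ellipsoids `‖exp(S)(x - dev y)‖ < r`, the support inequality, and
convexity of the inverse radius along rays. -/

set_option autoImplicit false
set_option linter.unusedSectionVars false

open Set Filter Topology

namespace Pool.Agent.Helper2.RG

open Pool.Agent.Helper2.MK Pool.Agent.Helper50.HL Pool.Agent.Helper2.RO

variable {V Y : Type*} [NormedAddCommGroup V] [InnerProductSpace ℝ V] [FiniteDimensional ℝ V]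
    [TopologicalSpace Y] [T2Space Y] {D : Geom V Y}
    (hinc : ∀ y, dom D.dev y ≠ univ)
include hinc

theorem exists_contact_ex (y : Y) {S : V →L[ℝ] V} (hS : S ∈ D.P) :
    ∃ b, IsContact D.dev y (ex S) b :=
  exists_contact hinc (le_norm_ex D.cartan hS)

theorem rad_ex_pos (y : Y) {S : V →L[ℝ] V} (hS : S ∈ D.P) : 0 < rad D.dev y (ex S) :=
  rad_pos hinc D.dev_local (le_norm_ex D.cartan hS)

theorem FR_pos (y : Y) {S : V →L[ℝ] V} (hS : S ∈ D.P) : 0 < FR D.dev y S :=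
  inv_pos.2 (rad_ex_pos hinc y hS)

/-- continuity of `FR` at points of `Y × P` -/
theorem FR_continuousAt (y : Y) {S : V →L[ℝ] V} (hS : S ∈ D.P) :
    ContinuousAt (fun p : Y × (V →L[ℝ] V) => FR D.dev p.1 p.2) (y, S) :=
  ContinuousAt.inv₀ (rad_ex_continuous hinc D.dev_local ex_continuous ex_neg_ex).continuousAt
    (rad_ex_pos hinc y hS).ne'

/-- the contact vector is fixed by the operator of LEMMA LE -/
theorem contact_fix {y : Y} {S : V →L[ℝ] V} (hS : S ∈ D.P) {b : V}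
    (hb : IsContact D.dev y (ex S) b) :
    ∃ η ∈ D.P, ‖η‖ = 1 ∧
      η (ex ((2 : ℝ) • S) (b - D.dev y)) = ex ((2 : ℝ) • S) (b - D.dev y) ∧
      ∀ ρ > 0, ∃ ε > 0, ∀ C : Set V, IsOpen C → Convex ℝ C →
      C ⊆ dom D.dev y → Metric.ball (D.dev y) ρ ⊆ C → ∀ w, top η w = 0 → ‖w‖ < ε →
        b + w ∉ C := by
  have hP := D.cartan
  have hr := rad_ex_pos hinc y hS
  obtain ⟨hb1, hb2⟩ := hb
  set v := b - D.dev y with hv
  set r := rad D.dev y (ex S) with hrdef
  have hvis : ∀ s : ℝ, 0 < s → s ≤ 1 → b + s • (D.dev y - b) ∈ dom D.dev y := by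
    intro s hs hs1
    refine mem_dom_of_lt (T := ex S) ?_
    have e1 : b + s • (D.dev y - b) - D.dev y = (1 - s) • v := by
      rw [hv]; module
    rw [e1, map_smul, norm_smul, hb2, Real.norm_of_nonneg (by linarith)]
    nlinarith
  obtain ⟨η, hη, h1, hle⟩ := le_lemma D hb1 hvis
  refine ⟨η, hη, h1, ?_, hle⟩
  have hopen := isOpen_tball (ex S) (D.dev y) r
  have hmem : D.dev y ∈ {x | ‖ex S (x - D.dev y)‖ < r} := by
    simp only [mem_setOf_eq, sub_self, map_zero, norm_zero]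
    exact hr
  obtain ⟨ρ, hρ, hρ'⟩ := Metric.isOpen_iff.1 hopen _ hmem
  obtain ⟨ε, hε, hε'⟩ := hle ρ hρ
  have hle2 : ∀ w, top η w = 0 → ‖w‖ < ε → ‖ex S v‖ ≤ ‖ex S (v + w)‖ := by
    intro w hw hwε
    have h2 := hε' _ hopen (convex_tball _ _ _) (fun x hx => mem_dom_of_lt hx) hρ' w hw hwε
    simp only [mem_setOf_eq, not_lt] at h2
    rw [hb2]
    have e1 : v + w = b + w - D.dev y := by rw [hv]; abel
    rw [e1]
    exact h2
  have hpos : ∀ w, top η w = 0 → 0 ≤ inner ℝ (ex ((2 : ℝ) • S) v) w := by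
    intro w hw
    by_contra hneg
    push Not at hneg
    set a := inner ℝ (ex ((2 : ℝ) • S) v) w with ha
    have hs : ∀ᶠ t in 𝓝[>] (0 : ℝ), 2 * a + t * ‖ex S w‖ ^ 2 < 0 ∧ ‖t • w‖ < ε := by
      have c1 : Tendsto (fun t : ℝ => 2 * a + t * ‖ex S w‖ ^ 2) (𝓝 0) (𝓝 (2 * a)) := by
        have : Continuous fun t : ℝ => 2 * a + t * ‖ex S w‖ ^ 2 := by fun_prop
        simpa using this.tendsto 0
      have c2 : Tendsto (fun t : ℝ => ‖t • w‖) (𝓝 0) (𝓝 0) := by
        have : Continuous fun t : ℝ => ‖t • w‖ := by fun_prop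
        simpa using this.tendsto 0
      exact ((c1.eventually (gt_mem_nhds (by linarith))).and
        (c2.eventually (gt_mem_nhds hε))).filter_mono nhdsWithin_le_nhds
    obtain ⟨t, ⟨ht1, ht2⟩, ht0⟩ := (hs.and self_mem_nhdsWithin).exists
    have ht0' : (0 : ℝ) < t := ht0
    have h3 := hle2 (t • w) (by rw [map_smul, hw, smul_zero]) ht2
    have h4 : ‖ex S v‖ ^ 2 ≤ ‖ex S (v + t • w)‖ ^ 2 := by gcongr
    rw [map_add, map_smul, norm_add_sq_real, inner_smul_right, norm_smul, mul_pow,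
      Real.norm_of_nonneg ht0'.le] at h4
    have h5 : inner ℝ (ex S v) (ex S w) = a := by
      rw [ha, ex_two, ContinuousLinearMap.mul_apply, ex_symm hP hS (ex S v) w]
    rw [h5] at h4
    nlinarith
  have hzero : ∀ w, top η w = 0 → inner ℝ (ex ((2 : ℝ) • S) v) w = 0 := by
    intro w hw
    have h2 := hpos w hw
    have h3 := hpos (-w) (by rw [map_neg, hw, neg_zero])
    rw [inner_neg_right] at h3
    linarith
  rw [fix_iff hP hη h1]
  have h6 : ex ((2 : ℝ) • S) v - top η (ex ((2 : ℝ) • S) v) = 0 := by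
    rw [← inner_self_eq_zero (𝕜 := ℝ)]
    set ℓ := ex ((2 : ℝ) • S) v with hℓ
    have h7 : top η (ℓ - top η ℓ) = 0 := by rw [map_sub, top_top hP hη, sub_self]
    have h8 := hzero _ h7
    have h9 : inner ℝ (top η ℓ) (ℓ - top η ℓ) = 0 := by
      rw [top_symm hP hη, h7, inner_zero_right]
    rw [inner_sub_left, h8, h9, sub_zero]
  exact (sub_eq_zero.1 h6).symm

/-- equality in the support inequality at the point itself -/
theorem contact_eq {y : Y} {S : V →L[ℝ] V} (hS : S ∈ D.P) {b : V}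
    (hb : IsContact D.dev y (ex S) b) {η : V →L[ℝ] V} (hη : η ∈ D.P) (h1 : ‖η‖ = 1)
    (hfix : η (ex ((2 : ℝ) • S) (b - D.dev y)) = ex ((2 : ℝ) • S) (b - D.dev y)) {ℓ : V}
    (hℓ : η ℓ = ℓ) :
    rad D.dev y (ex S) * ‖ex (-S) ℓ‖ = ‖top η (b - D.dev y)‖ * ‖ℓ‖ := by
  have hP := D.cartan
  have hS' : -S ∈ D.P := D.P.neg_mem hS
  obtain ⟨f, hf, hf1, hf2⟩ := conformal hP hη h1 hS'
  set v := b - D.dev y with hv
  set ℓ0 := ex ((2 : ℝ) • S) v with hℓ0
  have e1 : ex (-S) ℓ0 = ex S v := by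
    rw [hℓ0, ex_two, ContinuousLinearMap.mul_apply, ex_neg_ex]
  have e2 : ex ((2 : ℝ) • (-S)) ℓ0 = v := by
    rw [smul_neg, hℓ0, ex_neg_ex]
  have e3 := hf2 ℓ0 hfix
  rw [e2] at e3
  have e4 := hf1 ℓ0 hfix
  rw [e1] at e4
  rw [← hb.2, ← hv, e4, hf1 ℓ hℓ, e3, norm_smul, Real.norm_of_nonneg (by positivity)]
  ring

/-- D2: contacts and the support inequality -/
theorem contact_support {y : Y} {S : V →L[ℝ] V} (hS : S ∈ D.P) {b : V}
    (hb : IsContact D.dev y (ex S) b) :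
    ∃ η ∈ D.P, ‖η‖ = 1 ∧
      η (ex ((2 : ℝ) • S) (b - D.dev y)) = ex ((2 : ℝ) • S) (b - D.dev y) ∧
      ∀ᶠ p : Y × (V →L[ℝ] V) in 𝓝 (y, S), p.2 ∈ D.P → ∀ ℓ, η ℓ = ℓ →
        rad D.dev p.1 (ex p.2) * ‖ex (-p.2) ℓ‖ ≤ ‖top η (b - D.dev p.1)‖ * ‖ℓ‖ := by
  have hP := D.cartan
  have hS' : -S ∈ D.P := D.P.neg_mem hS
  have hr := rad_ex_pos hinc y hS
  obtain ⟨η, hη, h1, hfix, hle⟩ := contact_fix hinc hS hb
  refine ⟨η, hη, h1, hfix, ?_⟩
  obtain ⟨f0, hf0, hf1, hf2⟩ := conformal hP hη h1 hS'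
  set v := b - D.dev y with hv
  set ℓ0 := ex ((2 : ℝ) • S) v with hℓ0
  set r := rad D.dev y (ex S) with hrdef
  have e1 : ex (-S) ℓ0 = ex S v := by
    rw [hℓ0, ex_two, ContinuousLinearMap.mul_apply, ex_neg_ex]
  have e2 : ex ((2 : ℝ) • (-S)) ℓ0 = v := by
    rw [smul_neg, hℓ0, ex_neg_ex]
  have e3 := hf2 ℓ0 hfix
  rw [e2] at e3
  have e4 := hf1 ℓ0 hfix
  rw [e1, hb.2, ← hrdef] at e4
  have hℓ0pos : 0 < ‖ℓ0‖ := by
    rcases (norm_nonneg ℓ0).eq_or_lt' with h | h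
    · rw [h, mul_zero] at e4; linarith
    · exact h
  -- radius of a fixed ball
  set B := ‖ex S‖ + 1 with hB
  have hBpos : 0 < B := by positivity
  set ρ : ℝ := r / (8 * B) with hρdef
  have hρ : 0 < ρ := by positivity
  obtain ⟨ε, hε, hε'⟩ := hle ρ hρ
  have hdevc : Continuous D.dev := D.dev_local.continuous
  -- the conformal factor as a function of the operator
  set F : (V →L[ℝ] V) → ℝ := fun T => ‖ex (-T) ℓ0‖ / ‖ℓ0‖ with hF
  have hFc : Continuous F := by
    have h2 : Continuous fun T : V →L[ℝ] V => ex (-T) ℓ0 :=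
      (ContinuousLinearMap.apply ℝ V ℓ0).continuous.comp (ex_continuous.comp continuous_neg)
    exact h2.norm.div_const _
  have hFS : F S = f0 := by
    simp only [hF]
    rw [e1, hb.2, ← hrdef, e4]
    field_simp
  -- the moving point
  set bt : Y × (V →L[ℝ] V) → V := fun p => D.dev p.1 +
    ((F p.2 ^ 2)⁻¹ : ℝ) • ex (-((2 : ℝ) • p.2)) (top η (b - D.dev p.1)) with hbt
  have hbtc : ContinuousAt bt (y, S) := by
    have c1 : ContinuousAt (fun p : Y × (V →L[ℝ] V) => ((F p.2 ^ 2)⁻¹ : ℝ)) (y, S) := by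
      refine ContinuousAt.inv₀ ((hFc.comp continuous_snd).pow 2).continuousAt ?_
      simp only [hFS]
      positivity
    have c2 : Continuous (fun p : Y × (V →L[ℝ] V) =>
        ex (-((2 : ℝ) • p.2)) (top η (b - D.dev p.1))) := by
      have c3 : Continuous (fun p : Y × (V →L[ℝ] V) => ex (-((2 : ℝ) • p.2))) :=
        ex_continuous.comp (continuous_snd.const_smul (2 : ℝ)).neg
      have c4 : Continuous (fun p : Y × (V →L[ℝ] V) => top η (b - D.dev p.1)) :=
        (top η).continuous.comp (continuous_const.sub (hdevc.comp continuous_fst))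
      exact c3.clm_apply c4
    exact (hdevc.comp continuous_fst).continuousAt.add (c1.smul c2.continuousAt)
  have hbtv : bt (y, S) = b := by
    simp only [hbt, hFS]
    rw [← hv, e3, map_smul, smul_smul, inv_mul_cancel₀ (by positivity), one_smul, hℓ0, ex_neg_ex,
      hv]
    abel
  have hb'ε : ∀ᶠ p : Y × (V →L[ℝ] V) in 𝓝 (y, S), ‖bt p - b‖ < ε := by
    have h2 := (hbtc.tendsto.sub_const b).norm
    rw [hbtv, sub_self, norm_zero] at h2
    exact h2.eventually (gt_mem_nhds hε)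
  have hρ1 : ∀ᶠ p : Y × (V →L[ℝ] V) in 𝓝 (y, S), ‖D.dev p.1 - D.dev y‖ < ρ := by
    have h2 : Tendsto (fun p : Y × (V →L[ℝ] V) => ‖D.dev p.1 - D.dev y‖) (𝓝 (y, S)) (𝓝 0) := by
      have : Continuous fun p : Y × (V →L[ℝ] V) => ‖D.dev p.1 - D.dev y‖ := by fun_prop
      simpa using this.tendsto (y, S)
    exact h2.eventually (gt_mem_nhds hρ)
  have hrad2 : ∀ᶠ p : Y × (V →L[ℝ] V) in 𝓝 (y, S), r / 2 < rad D.dev p.1 (ex p.2) := by
    refine (rad_ex_continuous hinc D.dev_local ex_continuous ex_neg_ex).continuousAt.eventually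
      (lt_mem_nhds ?_)
    simp only
    linarith
  have hnorm2 : ∀ᶠ p : Y × (V →L[ℝ] V) in 𝓝 (y, S), ‖ex p.2‖ < B := by
    have : Continuous fun p : Y × (V →L[ℝ] V) => ‖ex p.2‖ :=
      (ex_continuous.comp continuous_snd).norm
    refine this.continuousAt.eventually (gt_mem_nhds ?_)
    simp only [hB]
    linarith
  have hnear : ∀ᶠ p : Y × (V →L[ℝ] V) in 𝓝 (y, S), D.dev p.1 ∈ dom D.dev y ∧
      sec D.dev y (D.dev p.1) = p.1 ∧ D.dev y ∈ dom D.dev p.1 ∧
      sec D.dev p.1 (D.dev y) = y :=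
    (continuous_fst.tendsto (y, S)).eventually (near D.dev_local y)
  filter_upwards [hb'ε, hρ1, hrad2, hnear, hnorm2] with p h2 h3 h4 h5 h6 hpP ℓ hℓ
  obtain ⟨y', T⟩ := p
  obtain ⟨-, -, hy3, hy4⟩ := h5
  simp only at h2 h3 h4 h6 hpP hy3 hy4 ⊢
  obtain ⟨f, hf, hg1, hg2⟩ := conformal hP hη h1 (D.P.neg_mem hpP)
  have hFT : F T = f := by
    simp only [hF]
    rw [hg1 ℓ0 hfix]
    field_simp
  set u := top η (b - D.dev y') with hu
  have hufix : η u = u := by rw [hu, apply_top hP hη h1]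
  -- main claim
  have key : rad D.dev y' (ex T) * f ≤ ‖u‖ := by
    by_contra hlt
    push Not at hlt
    set b' := bt (y', T) with hb'
    have hb'e : b' = D.dev y' + ((f ^ 2)⁻¹ : ℝ) • ex (-((2 : ℝ) • T)) u := by
      rw [hb', hbt]
      simp only [hFT, ← hu]
    have hperp : top η (b' - b) = 0 := by
      have a1 : b' - b = ((f ^ 2)⁻¹ : ℝ) • ex (-((2 : ℝ) • T)) u - (b - D.dev y') := by
        rw [hb'e]; abel
      have a2 := hg2 u hufix
      rw [smul_neg] at a2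
      rw [a1, map_sub, map_smul, a2, smul_smul, inv_mul_cancel₀ (by positivity), one_smul, ← hu,
        sub_self]
    have hmemC : b' ∈ {x | ‖ex T (x - D.dev y')‖ < rad D.dev y' (ex T)} := by
      simp only [mem_setOf_eq]
      have a1 : b' - D.dev y' = ((f ^ 2)⁻¹ : ℝ) • ex (-((2 : ℝ) • T)) u := by
        rw [hb'e]; abel
      have a2 : ex T (ex (-((2 : ℝ) • T)) u) = ex (-T) u := by
        have a3 : -((2 : ℝ) • T) = (2 : ℝ) • (-T) := by rw [smul_neg]
        rw [a3, ex_two, ContinuousLinearMap.mul_apply, ex_ex_neg]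
      rw [a1, map_smul, a2, norm_smul, hg1 u hufix, Real.norm_of_nonneg (by positivity)]
      have a4 : (f ^ 2)⁻¹ * (f * ‖u‖) = ‖u‖ / f := by field_simp
      rw [a4, div_lt_iff₀ hf]
      exact hlt
    have hball : ∀ x, ‖x - D.dev y‖ < ρ → ‖ex T (x - D.dev y')‖ < rad D.dev y' (ex T) := by
      intro x hx
      have a1 : x - D.dev y' = (x - D.dev y) - (D.dev y' - D.dev y) := by abel
      have a2 : ‖x - D.dev y'‖ < ρ + ρ := by
        rw [a1]
        exact (norm_sub_le _ _).trans_lt (add_lt_add hx h3)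
      have a3 : ‖ex T (x - D.dev y')‖ ≤ B * (ρ + ρ) :=
        ((ex T).le_opNorm _).trans (mul_le_mul h6.le a2.le (norm_nonneg _) hBpos.le)
      have a4 : B * (ρ + ρ) = r / 4 := by
        rw [hρdef]
        field_simp
        ring
      linarith
    have hyC : D.dev y ∈ {x | ‖ex T (x - D.dev y')‖ < rad D.dev y' (ex T)} :=
      hball _ (by rw [sub_self, norm_zero]; exact hρ)
    have hy'C : D.dev y' ∈ {x | ‖ex T (x - D.dev y')‖ < rad D.dev y' (ex T)} := by
      simp only [mem_setOf_eq, sub_self, map_zero, norm_zero]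
      linarith
    have hC := rebase D.dev_local (isOpen_tball (ex T) (D.dev y') (rad D.dev y' (ex T)))
      (convex_tball _ _ _) hy'C (fun x hx => mem_dom_of_lt hx) hyC
    rw [hy4] at hC
    refine hε' _ (isOpen_tball (ex T) (D.dev y') (rad D.dev y' (ex T))) (convex_tball _ _ _)
      hC.1 ?_ (b' - b) hperp h2 ?_
    · intro x hx
      exact hball x (by rwa [mem_ball_iff_norm] at hx)
    · rw [add_sub_cancel]
      exact hmemC
  rw [hg1 ℓ hℓ, ← mul_assoc]
  exact mul_le_mul_of_nonneg_right key (norm_nonneg _)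

end Pool.Agent.Helper2.RG
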